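import Mathlib

/-!
# Odd closed walks of rational shifts

`MP_c09310_nt`. The pair `(i, p)` stands for the rational number `n + i / p`. An edge between `(i, p)` and `(j, q)`
means that `N = (n + i / p) (n + j / q) / 2` is an integer of the `n`-th row of the triangular arrangement.
-/

set_option autoImplicit false

namespace Pool.Agent.Lib_MP_c09310_ts

/-- `N` lies in row `n` -/
def InRow (n N : ℕ) : Prop := n * n < 2 * N + n ∧ 2 * N ≤ n * n + n

/-- common divisor of all `p n + i`, `n ≡ c` modulo `M` -/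
def dv (M c : ℕ) (u : ℤ × ℕ) : ℕ := Nat.gcd M ((u.2 : ℤ) * c + u.1).natAbs

/-- the edges for the class `c` modulo `M`, valid for all `n ≥ n0` -/
def edge (n0 M c : ℕ) (u v : ℤ × ℕ) : Bool :=
  decide (0 < u.2) && (decide (0 < v.2) && (decide (0 < (u.2 : ℤ) * n0 + u.1) &&
  (decide (0 < (v.2 : ℤ) * n0 + v.1) &&
  (decide (dv M c u * dv M c v % (2 * (u.2 * v.2)) = 0) &&
  (decide (u.1 * v.2 + v.1 * u.2 ≤ (u.2 : ℤ) * v.2) &&
  (decide (-((u.2 : ℤ) * v.2) ≤ u.1 * v.2 + v.1 * u.2) &&
  (decide (u.1 * v.1 ≤ n0 * ((u.2 : ℤ) * v.2 - (u.1 * v.2 + v.1 * u.2))) &&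
  decide (-(u.1 * v.1) < n0 * ((u.2 : ℤ) * v.2 + (u.1 * v.2 + v.1 * u.2))))))))))

/-- a walk from `u` along the list to `w` -/
def walk (n0 M c : ℕ) : ℤ × ℕ → List (ℤ × ℕ) → ℤ × ℕ → Bool
  | u, [], w => edge n0 M c u w
  | u, v :: L, w => edge n0 M c u v && walk n0 M c v L w

/-- an odd closed walk -/
def leafOK (n0 M c : ℕ) : List (ℤ × ℕ) → Bool
  | [] => false
  | v :: L => decide (L.length % 2 = 0) && walk n0 M c v L v

/-- tokens of a certificate: a leaf is an odd closed walk for the current class, a split refines the current class -/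
inductive Tok
  | leaf (l : List (ℤ × ℕ))
  | split (k : ℕ)

/-- check of a certificate; the second list contains the classes `(c, M)` which are still to be treated -/
def run (n0 : ℕ) : List Tok → List (ℕ × ℕ) → Bool
  | _, [] => true
  | [], _ :: _ => false
  | Tok.leaf l :: T, (c, M) :: W => leafOK n0 M c l && run n0 T W
  | Tok.split k :: T, (c, M) :: W =>
      decide (0 < k) && run n0 T ((List.range k).map (fun a => (c + a * M, k * M)) ++ W)

/-- the number `p n + i` -/
def val (n : ℕ) (u : ℤ × ℕ) : ℕ := ((u.2 : ℤ) * n + u.1).toNat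

theorem dv_dvd {M c n : ℕ} (h : n ≡ c [MOD M]) (u : ℤ × ℕ) :
    (dv M c u : ℤ) ∣ (u.2 : ℤ) * n + u.1 := by
  have h1 : (dv M c u : ℤ) ∣ (u.2 : ℤ) * c + u.1 := by
    have : dv M c u ∣ ((u.2 : ℤ) * c + u.1).natAbs := Nat.gcd_dvd_right _ _
    exact Int.natCast_dvd.2 this
  have h2 : (dv M c u : ℤ) ∣ (M : ℤ) := Int.natCast_dvd_natCast.2 (Nat.gcd_dvd_left _ _)
  have h3 : (M : ℤ) ∣ (n : ℤ) - c := by
    have := (Int.natCast_modEq_iff.2 h).symm.dvd
    exact this
  have h4 : (u.2 : ℤ) * n + u.1 = ((u.2 : ℤ) * c + u.1) + u.2 * ((n : ℤ) - c) := by ring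
  rw [h4]
  exact dvd_add h1 (Dvd.dvd.mul_left (h2.trans h3) _)

theorem edge_sound {n0 M c n : ℕ} (hn : n0 ≤ n) (h : n ≡ c [MOD M]) {u v : ℤ × ℕ}
    (he : edge n0 M c u v = true) :
    0 < u.2 ∧ 0 < v.2 ∧ 0 < val n u ∧ 0 < val n v ∧
      ∃ N : ℕ, InRow n N ∧ 2 * N * (u.2 * v.2) = val n u * val n v := by
  obtain ⟨i, p⟩ := u
  obtain ⟨j, q⟩ := v
  unfold edge at he
  simp only [Bool.and_eq_true, decide_eq_true_eq] at he
  obtain ⟨hp, hq, hA0, hB0, hd, h1, h2, h3, h4⟩ := he
  have hn' : (n0 : ℤ) ≤ n := by exact_mod_cast hn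
  have hpz : (0 : ℤ) < p := by exact_mod_cast hp
  have hqz : (0 : ℤ) < q := by exact_mod_cast hq
  have hA : 0 < (p : ℤ) * n + i := by nlinarith
  have hB : 0 < (q : ℤ) * n + j := by nlinarith
  have hvA : ((val n (i, p) : ℕ) : ℤ) = (p : ℤ) * n + i := Int.toNat_of_nonneg hA.le
  have hvB : ((val n (j, q) : ℕ) : ℤ) = (q : ℤ) * n + j := Int.toNat_of_nonneg hB.le
  have hdu := dv_dvd h (i, p)
  have hdv := dv_dvd h (j, q)
  simp only at hdu hdv
  have hdvd : (2 * (p * q)) ∣ val n (i, p) * val n (j, q) := by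
    have h5 : (2 * (p * q)) ∣ dv M c (i, p) * dv M c (j, q) := Nat.dvd_of_mod_eq_zero hd
    have h6 : dv M c (i, p) ∣ val n (i, p) := by
      rw [← hvA] at hdu
      exact Int.natCast_dvd_natCast.1 hdu
    have h7 : dv M c (j, q) ∣ val n (j, q) := by
      rw [← hvB] at hdv
      exact Int.natCast_dvd_natCast.1 hdv
    exact h5.trans (mul_dvd_mul h6 h7)
  obtain ⟨N, hN⟩ := hdvd
  refine ⟨hp, hq, ?_, ?_, N, ?_, ?_⟩
  · have : (0 : ℤ) < (val n (i, p) : ℕ) := by rw [hvA]; exact hA
    exact_mod_cast this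
  · have : (0 : ℤ) < (val n (j, q) : ℕ) := by rw [hvB]; exact hB
    exact_mod_cast this
  · have hNz : ((p : ℤ) * n + i) * ((q : ℤ) * n + j) = 2 * (p * q) * N := by
      rw [← hvA, ← hvB]
      exact_mod_cast hN
    have hpq : (0 : ℤ) < (p : ℤ) * q := mul_pos hpz hqz
    have e1 : i * j ≤ (n : ℤ) * ((p : ℤ) * q - (i * q + j * p)) :=
      h3.trans (mul_le_mul_of_nonneg_right hn' (by linarith))
    have e2 : -(i * j) < (n : ℤ) * ((p : ℤ) * q + (i * q + j * p)) :=
      lt_of_lt_of_le h4 (mul_le_mul_of_nonneg_right hn' (by linarith))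
    have key : (p : ℤ) * q * (2 * N) = p * q * (n * n) + n * (i * q + j * p) + i * j := by
      linear_combination -hNz
    constructor
    · have h8 : (n : ℤ) * n < 2 * N + n := by
        have h9 : (p : ℤ) * q * (n * n) < p * q * (2 * N + n) := by
          have : (p : ℤ) * q * (2 * N + n) = p * q * (2 * N) + n * (p * q) := by ring
          rw [this, key]
          linarith [e2]
        exact lt_of_mul_lt_mul_left h9 hpq.le
      exact_mod_cast h8
    · have h8 : 2 * (N : ℤ) ≤ n * n + n := by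
        have h9 : (p : ℤ) * q * (2 * N) ≤ p * q * (n * n + n) := by
          have : (p : ℤ) * q * (n * n + n) = p * q * (n * n) + n * (p * q) := by ring
          rw [this, key]
          linarith [e1]
        exact le_of_mul_le_mul_left h9 hpq
      exact_mod_cast h8
  · rw [hN]
    ring

theorem walk_sound {n0 M c n : ℕ} (hn : n0 ≤ n) (h : n ≡ c [MOD M]) :
    ∀ (L : List (ℤ × ℕ)) (u w : ℤ × ℕ), walk n0 M c u L w = true →
      0 < u.2 ∧ 0 < w.2 ∧ 0 < val n u ∧ 0 < val n w ∧
      ∃ (Ns : List ℕ) (a b : ℕ), Ns.length = L.length + 1 ∧ (∀ N ∈ Ns, InRow n N) ∧ 0 < b ∧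
        2 ^ (L.length + 1) * Ns.prod * (u.2 * w.2) * b ^ 2 = val n u * val n w * a ^ 2 := by
  intro L
  induction L with
  | nil =>
    intro u w hw
    obtain ⟨hu, hw', hA, hB, N, hN, hE⟩ := edge_sound hn h (show edge n0 M c u w = true from hw)
    refine ⟨hu, hw', hA, hB, [N], 1, 1, rfl, ?_, one_pos, ?_⟩
    · intro N' hN'
      rw [List.mem_singleton] at hN'
      rw [hN']
      exact hN
    · simp only [List.length_nil, List.prod_singleton]
      rw [← hE]
      ring
  | cons v L ih =>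
    intro u w hw
    have hw1 : edge n0 M c u v = true ∧ walk n0 M c v L w = true := by
      have : (edge n0 M c u v && walk n0 M c v L w) = true := hw
      rwa [Bool.and_eq_true] at this
    obtain ⟨hu, hv, hA, hB, N, hN, hE⟩ := edge_sound hn h hw1.1
    obtain ⟨-, hw', -, hC, Ns, a, b, hlen, hrow, hb, hprod⟩ := ih v w hw1.2
    refine ⟨hu, hw', hA, hC, N :: Ns, val n v * a, v.2 * b, ?_, ?_, Nat.mul_pos hv hb, ?_⟩
    · simp [hlen]
    · intro N' hN'
      rcases List.mem_cons.1 hN' with h1 | h1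
      · rw [h1]; exact hN
      · exact hrow N' h1
    · rw [List.prod_cons, List.length_cons]
      calc 2 ^ (L.length + 1 + 1) * (N * Ns.prod) * (u.2 * w.2) * (v.2 * b) ^ 2
          = (2 * N * (u.2 * v.2)) * (2 ^ (L.length + 1) * Ns.prod * (v.2 * w.2) * b ^ 2) := by ring
        _ = (val n u * val n v) * (val n v * val n w * a ^ 2) := by rw [hE, hprod]
        _ = val n u * val n w * (val n v * a) ^ 2 := by ring

/-- an integer whose product with a nonzero square is a square is a square -/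
theorem isSquare_of_mul_sq {x c d : ℕ} (hc : 0 < c) (h : x * c ^ 2 = d ^ 2) : IsSquare x := by
  have h1 : c ^ 2 ∣ d ^ 2 := ⟨x, by rw [← h]; ring⟩
  have h2 : c ∣ d := (Nat.pow_dvd_pow_iff two_ne_zero).1 h1
  obtain ⟨e, rfl⟩ := h2
  refine ⟨e, ?_⟩
  have h3 : x * c ^ 2 = (e * e) * c ^ 2 := by rw [h]; ring
  exact Nat.eq_of_mul_eq_mul_right (pow_pos hc 2) h3

/-- lists with factors in row `n` whose product is twice a square, up to squares -/
def Good (n : ℕ) : Prop := ∃ Ns : List ℕ, (∀ N ∈ Ns, InRow n N) ∧ IsSquare (2 * Ns.prod)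

theorem leaf_sound {n0 M c n : ℕ} (hn : n0 ≤ n) (h : n ≡ c [MOD M]) {l : List (ℤ × ℕ)}
    (hl : leafOK n0 M c l = true) : Good n := by
  cases l with
  | nil => exact absurd hl (by simp [leafOK])
  | cons v L =>
    have hl1 : L.length % 2 = 0 ∧ walk n0 M c v L v = true := by
      have : (decide (L.length % 2 = 0) && walk n0 M c v L v) = true := hl
      rwa [Bool.and_eq_true, decide_eq_true_eq] at this
    obtain ⟨hv, -, hA, -, Ns, a, b, -, hrow, hb, hprod⟩ := walk_sound hn h L v v hl1.2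
    refine ⟨Ns, hrow, ?_⟩
    obtain ⟨j, hj⟩ : ∃ j, L.length = 2 * j := ⟨L.length / 2, by omega⟩
    refine isSquare_of_mul_sq (c := 2 ^ j * v.2 * b) (d := val n v * a)
      (Nat.mul_pos (Nat.mul_pos (by positivity) hv) hb) ?_
    rw [hj] at hprod
    calc 2 * Ns.prod * (2 ^ j * v.2 * b) ^ 2
        = 2 ^ (2 * j + 1) * Ns.prod * (v.2 * v.2) * b ^ 2 := by
          have e : (2 : ℕ) ^ (2 * j + 1) = (2 ^ j) ^ 2 * 2 := by rw [pow_succ, mul_comm 2 j, pow_mul]
          rw [e]
          ring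
      _ = val n v * val n v * a ^ 2 := hprod
      _ = (val n v * a) ^ 2 := by ring

theorem split_class {n c M k : ℕ} (hk : 0 < k) (h : n ≡ c [MOD M]) :
    ∃ a < k, n ≡ c + a * M [MOD k * M] := by
  rcases Nat.eq_zero_or_pos M with hM | hM
  · subst hM
    exact ⟨0, hk, by simpa using h⟩
  -- a large multiple is added to make the difference nonnegative
  have h1 : (M : ℤ) ∣ (n : ℤ) - c := (Int.natCast_modEq_iff.2 h).symm.dvd
  obtain ⟨t, ht⟩ := h1
  have hkz : (0 : ℤ) < k := by exact_mod_cast hk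
  have h2 : 0 ≤ t % k := Int.emod_nonneg _ hkz.ne'
  have h3 : t % k < k := Int.emod_lt_of_pos _ hkz
  refine ⟨(t % k).toNat, ?_, ?_⟩
  · zify
    rw [Int.toNat_of_nonneg h2]
    exact h3
  · rw [← Int.natCast_modEq_iff]
    refine (Int.modEq_iff_dvd.2 ?_)
    push_cast
    rw [Int.toNat_of_nonneg h2]
    refine ⟨-(t / k), ?_⟩
    have h4 := Int.emod_add_mul_ediv t k
    have h5 : (n : ℤ) = c + M * t := by linarith
    rw [h5]
    have h6 : t = t % k + k * (t / k) := h4.symm
    calc (c : ℤ) + t % k * M - (c + M * t) = M * (t % k - t) := by ring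
      _ = M * (t % k - (t % k + k * (t / k))) := by rw [← h6]
      _ = k * M * -(t / k) := by ring

theorem run_sound {n0 : ℕ} : ∀ (T : List Tok) (W : List (ℕ × ℕ)), run n0 T W = true →
    ∀ x ∈ W, ∀ n, n0 ≤ n → n ≡ x.1 [MOD x.2] → Good n := by
  intro T
  induction T with
  | nil =>
    intro W hW x hx
    cases W with
    | nil => exact absurd hx (by simp)
    | cons y W => exact absurd hW (by simp [run])
  | cons t T ih =>
    intro W hW x hx n hn hc
    cases W with
    | nil => exact absurd hx (by simp)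
    | cons y W =>
      obtain ⟨c, M⟩ := y
      cases t with
      | leaf l =>
        have h1 : leafOK n0 M c l = true ∧ run n0 T W = true := by
          have : (leafOK n0 M c l && run n0 T W) = true := hW
          rwa [Bool.and_eq_true] at this
        rcases List.mem_cons.1 hx with h2 | h2
        · subst h2
          exact leaf_sound hn hc h1.1
        · exact ih W h1.2 x h2 n hn hc
      | split k =>
        have h1 : 0 < k ∧ run n0 T ((List.range k).map (fun a => (c + a * M, k * M)) ++ W) = true := by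
          have : (decide (0 < k) &&
            run n0 T ((List.range k).map (fun a => (c + a * M, k * M)) ++ W)) = true := hW
          rwa [Bool.and_eq_true, decide_eq_true_eq] at this
        rcases List.mem_cons.1 hx with h2 | h2
        · subst h2
          obtain ⟨a, ha, hac⟩ := split_class h1.1 hc
          refine ih _ h1.2 (c + a * M, k * M) ?_ n hn hac
          rw [List.mem_append, List.mem_map]
          exact Or.inl ⟨a, List.mem_range.2 ha, rfl⟩
        · refine ih _ h1.2 x ?_ n hn hc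
          rw [List.mem_append]
          exact Or.inr h2

/-- multiple factors can be thrown out in pairs -/
theorem exists_finset (L : List ℕ) : ∃ S : Finset ℕ, (∀ N ∈ S, N ∈ L) ∧ IsSquare ((∏ N ∈ S, N) * L.prod) := by
  classical
  induction L with
  | nil => exact ⟨∅, by simp, by simp⟩
  | cons a L ih =>
    obtain ⟨S, hS, hsq⟩ := ih
    by_cases ha : a ∈ S
    · refine ⟨S.erase a, fun N hN => List.mem_cons_of_mem _ (hS N (Finset.mem_of_mem_erase hN)), ?_⟩
      rw [List.prod_cons]
      have h1 : (∏ N ∈ S.erase a, N) * a = ∏ N ∈ S, N := Finset.prod_erase_mul S (fun N => N) ha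
      have h2 : (∏ N ∈ S.erase a, N) * (a * L.prod) = (∏ N ∈ S, N) * L.prod := by
        rw [← h1]; ring
      rw [h2]
      exact hsq
    · refine ⟨insert a S, ?_, ?_⟩
      · intro N hN
        rcases Finset.mem_insert.1 hN with h | h
        · rw [h]; exact List.mem_cons_self
        · exact List.mem_cons_of_mem _ (hS N h)
      · rw [Finset.prod_insert ha, List.prod_cons]
        obtain ⟨e, he⟩ := hsq
        refine ⟨a * e, ?_⟩
        calc a * (∏ N ∈ S, N) * (a * L.prod) = a * a * ((∏ N ∈ S, N) * L.prod) := by ring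
          _ = a * e * (a * e) := by rw [he]; ring

theorem Good.finset {n : ℕ} (hn : 0 < n) (h : Good n) :
    ∃ S : Finset ℕ, (∀ N ∈ S, InRow n N) ∧ ∃ m, ∏ N ∈ S, N = 2 * m ^ 2 := by
  obtain ⟨L, hL, hsq⟩ := h
  obtain ⟨S, hS, hsq'⟩ := exists_finset L
  refine ⟨S, fun N hN => hL N (hS N hN), ?_⟩
  have hpos : ∀ N, InRow n N → 0 < N := by
    intro N hN
    rcases Nat.eq_zero_or_pos N with h0 | h0
    · exfalso
      rw [h0] at hN
      have := hN.1
      nlinarith
    · exact h0
  have hLpos : 0 < L.prod := by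
    rw [Nat.pos_iff_ne_zero]
    intro h0
    have := List.prod_eq_zero_iff.1 h0
    exact absurd (hpos 0 (hL 0 this)) (lt_irrefl 0)
  have h1 : IsSquare (2 * ∏ N ∈ S, N) := by
    obtain ⟨a, ha⟩ := hsq
    obtain ⟨b, hb⟩ := hsq'
    refine isSquare_of_mul_sq (c := L.prod) (d := a * b) hLpos ?_
    calc 2 * (∏ N ∈ S, N) * L.prod ^ 2 = (2 * L.prod) * ((∏ N ∈ S, N) * L.prod) := by ring
      _ = (a * a) * (b * b) := by rw [ha, hb]
      _ = (a * b) ^ 2 := by ring
  obtain ⟨e, he⟩ := h1
  have h2 : 2 ∣ e := by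
    have : 2 ∣ e * e := ⟨_, he.symm⟩
    rcases (Nat.Prime.dvd_mul Nat.prime_two).1 this with h | h <;> exact h
  obtain ⟨m, rfl⟩ := h2
  refine ⟨m, ?_⟩
  have : 2 * (∏ N ∈ S, N) = 2 * (2 * m ^ 2) := by rw [he]; ring
  omega

end Pool.Agent.Lib_MP_c09310_ts
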