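import Pool.Agent.Lib_MP_c09310_ts.Basic

/-!
# The certificate

A list of tokens which covers all residue classes: for every class an odd closed walk, valid for all `n ≥ 66`.
-/

set_option autoImplicit false

namespace Pool.Agent.Lib_MP_c09310_ts

def toks0 : List Tok :=
  [.split 2,
   .leaf [(0, 1)],
   .split 2,
   .split 3,
   .leaf [(1, 2), (1, 3), (-1, 1)],
   .split 5,
   .split 7,
   .leaf [(2, 1), (-1, 1), (1, 1), (0, 1), (-1, 5), (5, 6), (-11, 7)],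
   .leaf [(5, 2), (-23, 15), (10, 7), (-3, 5), (0, 1), (1, 1), (-5, 3), (11, 5), (-5, 2), (3, 1), (-2, 1), (5, 3), (-13, 5)],
   .split 11,
   .leaf [(3, 2), (-7, 11), (-1, 3), (1, 1), (-1, 1)],
   .leaf [(10, 7), (-13, 15), (5, 11), (-1, 2), (-3, 11), (15, 14), (-9, 5)],
   .leaf [(1, 1), (-2, 3), (5, 11), (1, 15), (-5, 7)],
   .leaf [(1, 1), (-1, 21), (-10, 11)],
   .leaf [(25, 7), (-16, 5), (35, 11), (-37, 15), (20, 11), (-1, 1), (15, 22), (9, 35), (-10, 11), (53, 35), (-65, 33), (41, 14), (-11, 3)],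
   .leaf [(13, 3), (-7, 2), (3, 1), (-2, 1), (5, 3), (-4, 5), (5, 11), (-1, 15), (-10, 11), (7, 5), (-25, 11), (43, 15), (-40, 11)],
   .leaf [(1, 1), (0, 1), (-3, 5), (5, 11), (-4, 3)],
   .leaf [(13, 6), (-11, 7), (1, 1), (-5, 7), (13, 55), (25, 42), (-71, 55), (40, 21), (-31, 11)],
   .leaf [(1, 1), (0, 1), (-1, 5), (5, 33), (-8, 7)],
   .split 2,
   .leaf [(22, 15), (-5, 7), (1, 1), (0, 1), (5, 11), (11, 60), (-85, 77)],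
   .leaf [(11, 4), (-145, 77), (22, 15), (-5, 7), (1, 1), (0, 1), (-3, 11), (11, 14), (-37, 33), (55, 28), (-31, 11)],
   .leaf [(5, 3), (-10, 11), (1, 5), (0, 1), (1, 1), (-3, 7), (-3, 11), (5, 14), (-71, 55)],
   .leaf [(1, 1), (-2, 3), (1, 7), (1, 2), (-1, 1)],
   .split 11,
   .leaf [(13, 3), (-7, 2), (3, 1), (-2, 1), (5, 3), (-4, 5), (5, 11), (-1, 15), (-10, 11), (7, 5), (-25, 11), (43, 15), (-40, 11)],
   .leaf [(1, 1), (0, 1), (-3, 5), (5, 11), (-4, 3)],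
   .leaf [(49, 15), (-25, 11), (9, 5), (-10, 11), (1, 3), (5, 11), (-17, 15), (20, 11), (-13, 5), (5, 3), (-2, 1), (7, 3), (-20, 7)],
   .leaf [(1, 1), (0, 1), (3, 7), (-7, 11), (-5, 14), (49, 55), (-5, 3)],
   .leaf [(4, 1), (-3, 1), (3, 1), (-2, 1), (5, 3), (-11, 10), (5, 11), (0, 1), (-5, 7), (7, 5), (-15, 7), (14, 5), (-55, 21), (35, 11), (-11, 3)],
   .split 3,
   .leaf [(19, 7), (-175, 99), (13, 10), (-35, 99), (-4, 35), (35, 33), (-2, 1), (5, 3), (-28, 11)],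
   .leaf [(35, 9), (-7, 2), (3, 1), (-2, 1), (5, 3), (-10, 11), (1, 5), (5, 11), (-19, 15), (20, 11), (-41, 15), (35, 11), (-136, 35)],
   .leaf [(5, 3), (-35, 22), (29, 35), (-35, 99), (-41, 70), (35, 33), (-2, 1)],
   .leaf [(3, 2), (-7, 11), (-1, 3), (1, 1), (-1, 1)],
   .leaf [(20, 11), (-13, 15), (5, 11), (-1, 2), (35, 33), (-67, 35), (35, 22), (-23, 35), (0, 1), (5, 7), (-7, 5), (10, 7), (-7, 3)],
   .leaf [(3, 1), (-25, 11), (23, 15), (-10, 11), (1, 15), (5, 11), (-7, 5), (25, 11), (-5, 2)],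
   .leaf [(21, 10), (-15, 11), (1, 1), (0, 1), (-5, 7), (7, 5), (-15, 7)],
   .leaf [(21, 11), (-1, 1), (1, 1), (0, 1), (-13, 35), (35, 33), (-25, 14)],
   .leaf [(15, 7), (-6, 5), (5, 7), (1, 5), (-5, 7), (8, 5), (-15, 7), (3, 1), (-2, 1), (5, 3), (-13, 5)],
   .split 13,
   .leaf [(6, 7), (1, 13), (-1, 1)],
   .leaf [(1, 1), (-2, 3), (1, 13), (4, 7), (-1, 1)],
   .leaf [(1, 1), (-1, 3), (1, 13), (2, 7), (-1, 1)],
   .leaf [(13, 7), (-1, 1), (1, 1), (0, 1), (1, 13), (13, 21), (-20, 13)],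
   .leaf [(5, 2), (-25, 13), (6, 5), (-5, 13), (1, 3), (1, 13), (-19, 21), (22, 13), (-15, 7)],
   .leaf [(5, 2), (-59, 35), (15, 13), (-1, 5), (0, 1), (1, 1), (-5, 3), (11, 5), (-5, 2), (3, 1), (-2, 1), (5, 3), (-13, 5)],
   .leaf [(1, 1), (-5, 13), (-3, 10), (5, 7), (-1, 1)],
   .leaf [(5, 2), (-11, 7), (4, 3), (-5, 13), (-2, 5), (15, 13), (-17, 10), (5, 3), (-13, 5)],
   .leaf [(5, 2), (-9, 5), (15, 13), (-11, 35), (-5, 26), (41, 35), (-20, 13), (5, 3), (-13, 5)],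
   .split 2,
   .leaf [(3, 4), (1, 7), (-1, 1)],
   .leaf [(37, 12), (-215, 91), (47, 30), (-95, 91), (1, 20), (5, 7), (-1, 1), (13, 7), (-11, 4), (55, 21), (-41, 13)],
   .leaf [(1, 1), (0, 1), (3, 5), (-5, 13), (1, 6), (1, 7), (-1, 1)],
   .leaf [(1, 1), (-1, 1), (10, 7), (-37, 65), (-5, 42), (47, 65), (-5, 3)],
   .leaf [(5, 2), (-11, 7), (4, 3), (-5, 7), (2, 5), (-5, 13), (5, 6), (-1, 5), (0, 1), (1, 1), (-5, 3), (11, 5), (-5, 2), (3, 1), (-2, 1), (5, 3), (-13, 5)],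
   .leaf [(1, 1), (-1, 3), (-1, 5), (1, 2), (-1, 1)],
   .leaf [(1, 1), (-1, 5), (-2, 3)],
   .split 7,
   .split 11]

def toks1 : List Tok :=
  [.leaf [(1, 1), (-2, 3), (-1, 11), (4, 5), (-1, 1)],
   .leaf [(1, 1), (-1, 21), (-10, 11)],
   .leaf [(9, 11), (1, 10), (-1, 1)],
   .leaf [(13, 55), (2, 3), (-1, 5), (-1, 6), (1, 7), (-3, 11), (-9, 14)],
   .leaf [(1, 1), (-1, 1), (1, 2), (5, 11), (-4, 3)],
   .leaf [(17, 7), (-17, 11), (6, 7), (-3, 11), (-5, 7), (1, 1), (-11, 7), (13, 6), (-31, 11)],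
   .split 3,
   .leaf [(11, 9), (-1, 2), (7, 9), (-1, 11), (-1, 5), (2, 3), (-7, 5)],
   .leaf [(1, 1), (-2, 7), (-5, 9)],
   .leaf [(3, 7), (4, 11), (-1, 5), (-4, 9), (-29, 55)],
   .leaf [(29, 11), (-11, 6), (11, 5), (-16, 11), (11, 15), (-1, 11), (-11, 15), (14, 11), (-11, 5)],
   .leaf [(1, 1), (-3, 7), (4, 11), (1, 5), (-1, 1)],
   .leaf [(3, 2), (-7, 11), (-1, 3), (14, 11), (-9, 5)],
   .leaf [(1, 1), (-1, 1), (3, 5), (4, 11), (-9, 7)],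
   .leaf [(1, 1), (-2, 3), (1, 7), (1, 2), (-1, 1)],
   .split 11,
   .leaf [(35, 11), (-16, 7), (21, 11), (-3, 2), (9, 11), (-2, 5), (-1, 11), (1, 3), (-7, 11), (29, 21), (-7, 5), (7, 3), (-13, 5), (29, 11), (-10, 3)],
   .leaf [(2, 1), (-1, 1), (1, 1), (0, 1), (3, 7), (-7, 5), (2, 3), (-1, 5), (-7, 22), (37, 35), (-21, 11)],
   .leaf [(29, 11), (-11, 6), (11, 5), (-16, 11), (11, 15), (-1, 11), (-11, 15), (14, 11), (-11, 5)],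
   .leaf [(133, 55), (-31, 21), (14, 11), (-3, 7), (0, 1), (3, 7), (-7, 5), (7, 3), (-2, 1), (21, 11), (-39, 14)],
   .leaf [(3, 2), (-7, 11), (-1, 3), (14, 11), (-9, 5)],
   .leaf [(21, 11), (-9, 7), (14, 11), (-23, 35), (-7, 22), (3, 5), (-1, 1), (7, 5), (-29, 14)],
   .leaf [(1, 1), (-2, 3), (-1, 11), (4, 5), (-1, 1)],
   .leaf [(1, 1), (-7, 11), (-1, 21), (7, 10), (-1, 1)],
   .leaf [(9, 11), (1, 10), (-1, 1)],
   .split 3,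
   .leaf [(49, 11), (-127, 35), (301, 99), (-31, 14), (161, 99), (-4, 5), (-1, 11), (2, 3), (-7, 5), (7, 3), (-61, 35), (14, 11), (-41, 21), (133, 55), (-137, 42), (217, 55), (-32, 7)],
   .leaf [(7, 5), (-1, 1), (1, 1), (0, 1), (-5, 7), (7, 9), (-19, 14)],
   .leaf [(11, 9), (-1, 2), (7, 9), (1, 7), (0, 1), (3, 7), (-7, 5)],
   .leaf [(1, 1), (-1, 1), (1, 2), (5, 11), (-4, 3)],
   .leaf [(13, 7), (-6, 5), (3, 7), (1, 5), (-1, 1), (1, 1), (-5, 3)],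
   .leaf [(3, 7), (2, 5), (-1, 1)],
   .leaf [(1, 1), (-1, 3), (-2, 7), (3, 5), (-1, 1)],
   .split 2,
   .leaf [(3, 5), (1, 4), (-1, 1)],
   .leaf [(3, 1), (-2, 1), (13, 7), (-19, 20), (-1, 21), (1, 10), (-1, 1), (7, 5), (-9, 4)],
   .leaf [(1, 3), (-1, 5), (-1, 2)],
   .split 2,
   .split 5,
   .split 7,
   .leaf [(3, 2), (-1, 1), (1, 1), (-3, 5), (11, 21), (9, 20), (-29, 21)],
   .leaf [(1, 1), (-1, 5), (-3, 7), (1, 2), (-1, 1)],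
   .leaf [(17, 15), (-3, 7), (-1, 2), (9, 7), (-13, 12), (3, 5), (-3, 2)],
   .leaf [(9, 7), (-1, 3), (-3, 7), (3, 5), (-3, 2)],
   .leaf [(1, 1), (-2, 5), (-3, 7)],
   .leaf [(5, 1), (-4, 1), (21, 5), (-23, 7), (14, 5), (-13, 7), (7, 5), (-3, 7), (0, 1), (1, 1), (-9, 5), (8, 3), (-3, 1), (3, 1), (-11, 3), (9, 2), (-5, 1)],
   .leaf [(3, 4), (1, 7), (-1, 1)],
   .split 7,
   .leaf [(9, 7), (-4, 5), (-1, 7), (3, 5), (-11, 12)],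
   .leaf [(1, 1), (-6, 7), (1, 15), (3, 4), (-1, 1)],
   .leaf [(2, 1), (-1, 1), (1, 1), (0, 1), (-3, 7), (7, 6), (-9, 5)],
   .leaf [(3, 4), (1, 7), (-1, 1)],
   .leaf [(3, 1), (-2, 1), (9, 7), (-3, 5), (-1, 7), (4, 5), (-11, 7), (11, 5), (-3, 1)],
   .split 11,
   .leaf [(3, 5), (-3, 11), (-1, 2)],
   .leaf [(1, 1), (-3, 11), (-7, 15), (3, 4), (-1, 1)],
   .leaf [(5, 2), (-19, 11), (13, 14), (-1, 5), (-1, 2), (7, 5), (-23, 11)],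
   .leaf [(23, 14), (-39, 55), (1, 3), (3, 5), (-1, 12), (-3, 35), (-29, 33), (6, 7), (-19, 11)],
   .leaf [(21, 11), (-11, 12), (3, 5), (1, 3), (-9, 10), (9, 7), (-11, 6)],
   .leaf [(2, 1), (-1, 1), (1, 1), (0, 1), (-1, 3), (12, 11), (-9, 5)]]

def toks2 : List Tok :=
  [.leaf [(3, 4), (1, 15), (-3, 11), (1, 4), (-1, 1)],
   .leaf [(7, 4), (-1, 1), (9, 11), (-3, 14), (-1, 33), (27, 28), (-19, 11)],
   .leaf [(39, 22), (-17, 21), (9, 11), (-1, 42), (-39, 55), (9, 7), (-31, 15)],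
   .leaf [(9, 7), (-2, 3), (3, 7), (2, 11), (-1, 5), (-1, 2), (3, 5), (1, 3), (-9, 10)],
   .leaf [(3, 4), (-1, 33), (-3, 7), (1, 2), (-1, 1)],
   .leaf [(9, 7), (-1, 2), (3, 5), (1, 3), (-6, 5)],
   .split 3,
   .leaf [(3, 2), (-1, 1), (1, 1), (0, 1), (-1, 3), (3, 5), (-13, 9)],
   .leaf [(5, 3), (-3, 4), (3, 5), (-1, 3), (-3, 5), (7, 9), (-3, 2)],
   .split 7,
   .leaf [(1, 2), (1, 7), (-1, 5)],
   .split 11,
   .leaf [(1, 1), (-1, 7), (-3, 11), (1, 4), (-1, 1)],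
   .leaf [(1, 1), (-1, 1), (1, 2), (-1, 5), (3, 11), (8, 15), (-9, 7)],
   .leaf [(1, 1), (-3, 11), (-4, 7)],
   .leaf [(135, 44), (-143, 63), (18, 11), (-11, 15), (3, 11), (0, 1), (-83, 99), (99, 70), (-223, 99), (99, 35), (-11, 3)],
   .leaf [(29, 15), (-12, 11), (7, 15), (3, 11), (-1, 1), (7, 4), (-27, 11)],
   .leaf [(-1, 6), (-3, 11), (-3, 7)],
   .leaf [(19, 33), (3, 10), (1, 7), (-3, 11), (-9, 14)],
   .leaf [(25, 11), (-23, 14), (69, 55), (-1, 3), (-3, 11), (41, 42), (-9, 5), (18, 11), (-17, 7)],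
   .leaf [(1, 1), (-2, 7), (-3, 11), (1, 2), (-1, 1)],
   .leaf [(18, 11), (-13, 15), (-9, 77), (38, 45), (-9, 7)],
   .leaf [(5, 3), (-3, 4), (-3, 35), (19, 33), (-3, 2)],
   .leaf [(11, 5), (-9, 7), (4, 5), (1, 7), (-3, 5), (11, 7), (-2, 1)],
   .leaf [(2, 1), (-1, 1), (1, 1), (0, 1), (-1, 3), (3, 5), (-9, 7)],
   .leaf [(3, 4), (1, 7), (-1, 1)],
   .split 11,
   .leaf [(171, 77), (-79, 60), (51, 77), (-1, 30), (-69, 77), (5, 4), (-1, 1), (7, 4), (-13, 5)],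
   .leaf [(81, 55), (-31, 63), (27, 44), (1, 15), (-3, 4), (3, 5), (-19, 12)],
   .leaf [(1, 1), (0, 1), (7, 9), (-9, 22), (-1, 5), (1, 2), (-1, 1)],
   .leaf [(9, 5), (-8, 9), (9, 7), (-1, 2), (1, 7), (1, 5), (-4, 7), (81, 55), (-13, 9)],
   .leaf [(99, 28), (-13, 5), (7, 4), (-1, 1), (1, 1), (0, 1), (-9, 11), (11, 7), (-23, 11), (33, 14), (-97, 33)],
   .leaf [(29, 15), (-12, 11), (7, 15), (3, 11), (-1, 1), (7, 4), (-27, 11)],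
   .leaf [(1, 7), (1, 5), (-2, 11), (-3, 7), (-1, 2)],
   .leaf [(2, 3), (-3, 7), (-1, 2), (1, 7), (-9, 11)],
   .leaf [(3, 2), (-1, 1), (1, 1), (0, 1), (-1, 9), (9, 28), (-41, 33)],
   .leaf [(3, 1), (-89, 42), (81, 55), (-17, 21), (-3, 55), (1, 2), (-15, 11), (7, 3), (-3, 1)],
   .leaf [(5, 11), (-1, 2), (-9, 77), (16, 45), (-9, 7)],
   .split 11,
   .leaf [(59, 21), (-21, 11), (16, 7), (-7, 5), (6, 7), (-7, 15), (9, 28), (7, 33), (-6, 7), (49, 33), (-9, 5), (49, 18), (-27, 11), (19, 9), (-63, 22)],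
   .leaf [(38, 21), (-63, 55), (59, 63), (0, 1), (-7, 9), (9, 7), (-21, 11)],
   .leaf [(7, 4), (-27, 35), (7, 9), (0, 1), (-5, 21), (21, 22), (-67, 35)],
   .leaf [(17, 7), (-63, 44), (59, 45), (-9, 22), (1, 3), (0, 1), (-7, 9), (9, 7), (-7, 4)],
   .leaf [(1, 1), (0, 1), (-3, 7), (7, 6), (-3, 11), (1, 4), (-1, 1)],
   .leaf [(7, 4), (-27, 35), (7, 9), (0, 1), (-13, 21), (21, 22), (-51, 35)],
   .leaf [(1, 1), (0, 1), (7, 9), (-9, 35), (-7, 11)],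
   .leaf [(171, 77), (-77, 60), (51, 77), (0, 1), (-7, 9), (9, 7), (-77, 36)],
   .leaf [(7, 4), (-69, 77), (7, 15), (3, 11), (-1, 1)],
   .leaf [(7, 4), (-27, 35), (7, 9), (0, 1), (-3, 7), (21, 22), (-59, 35)],
   .leaf [(3, 1), (-2, 1), (7, 5), (-9, 22), (-5, 9), (9, 11), (-16, 9), (27, 11), (-3, 1)],
   .leaf [(3, 5), (1, 4), (-1, 1)],
   .split 7,
   .leaf [(7, 4), (-1, 1), (1, 1), (0, 1), (-5, 7), (7, 5), (-15, 7)],
   .leaf [(3, 4), (1, 7), (-1, 1)],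
   .split 11,
   .leaf [(11, 5), (-5, 4), (5, 11), (2, 5), (-15, 11), (3, 2), (-15, 7)],
   .leaf [(25, 11), (-7, 5), (5, 11), (1, 4), (-1, 1), (3, 2), (-25, 21), (93, 55), (-5, 2)],
   .leaf [(3, 2), (-1, 1), (5, 11), (1, 10), (-45, 77), (83, 60), (-15, 7)],
   .leaf [(9, 7), (-5, 6), (3, 5), (-5, 12), (-3, 11), (1, 2), (-15, 11)],
   .leaf [(3, 2), (-13, 21), (6, 11), (3, 7), (-15, 11), (19, 15), (-15, 7)]]

def toks3 : List Tok :=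
  [.leaf [(1, 1), (0, 1), (1, 3), (-3, 7), (-17, 33), (3, 4), (-1, 1)],
   .leaf [(41, 11), (-20, 7), (11, 5), (-5, 4), (3, 5), (0, 1), (-13, 15), (15, 11), (-8, 5), (25, 11), (-27, 10), (95, 33), (-51, 14)],
   .leaf [(1, 1), (0, 1), (-3, 5), (10, 21), (-15, 11)],
   .split 2,
   .leaf [(5, 2), (-19, 11), (9, 8), (-3, 11), (-1, 4), (75, 77), (-23, 15), (15, 8), (-13, 5)],
   .leaf [(1, 1), (0, 1), (3, 5), (-5, 6), (-3, 35), (5, 8), (-1, 1)],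
   .leaf [(3, 1), (-2, 1), (9, 7), (-5, 6), (-3, 35), (45, 44), (-37, 21), (3, 2), (-7, 3)],
   .leaf [(20, 11), (-33, 35), (25, 33), (0, 1), (-11, 15), (15, 11), (-11, 5)],
   .leaf [(5, 3), (-9, 10), (5, 7), (-1, 5), (-5, 7), (6, 5), (-15, 7)],
   .leaf [(5, 1), (-4, 1), (25, 7), (-13, 5), (15, 7), (-6, 5), (5, 7), (1, 5), (-5, 7), (8, 5), (-15, 7), (3, 1), (-25, 7), (22, 5), (-5, 1)],
   .leaf [(5, 3), (-3, 2), (9, 7), (-1, 3), (-3, 7), (5, 6), (-9, 5)],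
   .split 11,
   .leaf [(1, 1), (0, 1), (-11, 15), (15, 22), (-11, 7)],
   .leaf [(11, 5), (-5, 4), (5, 11), (2, 5), (-15, 11), (3, 2), (-65, 33), (69, 35), (-5, 2)],
   .leaf [(1, 1), (-1, 7), (-3, 11), (1, 4), (-1, 1)],
   .leaf [(25, 11), (-25, 14), (69, 55), (-10, 21), (-3, 11), (5, 6), (-9, 5), (5, 3), (-21, 10)],
   .leaf [(1, 1), (-2, 7), (-3, 11), (1, 2), (-1, 1)],
   .leaf [(25, 11), (-51, 35), (15, 22), (-13, 21), (-3, 11), (20, 21), (-9, 5), (5, 3), (-12, 5)],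
   .leaf [(-1, 6), (-3, 11), (-3, 7)],
   .leaf [(5, 3), (-21, 20), (5, 11), (-1, 2), (-3, 11), (15, 14), (-9, 5)],
   .leaf [(1, 1), (-3, 11), (-4, 7)],
   .leaf [(5, 3), (-27, 20), (5, 11), (-1, 4), (-3, 11), (25, 21), (-9, 5)],
   .leaf [(5, 4), (-3, 11), (-5, 7), (1, 1), (-1, 1)],
   .split 5,
   .split 7,
   .split 13,
   .split 2,
   .leaf [(3, 2), (-1, 1), (1, 1), (0, 1), (-3, 7), (7, 8), (-9, 5)],
   .leaf [(3, 1), (-49, 24), (147, 65), (-71, 56), (7, 13), (1, 8), (-9, 13), (2, 3), (-21, 13), (9, 7), (-28, 13), (97, 35), (-7, 2)],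
   .leaf [(13, 7), (-21, 20), (7, 13), (1, 4), (-21, 65), (-11, 21), (0, 1), (3, 7), (-7, 5)],
   .leaf [(3, 2), (-1, 1), (7, 10), (9, 91), (-49, 60), (129, 91), (-7, 3)],
   .leaf [(7, 5), (-1, 1), (1, 1), (0, 1), (-3, 7), (7, 13), (-19, 14)],
   .leaf [(7, 13), (3, 10), (-1, 1)],
   .leaf [(7, 5), (-9, 14), (7, 13), (1, 10), (-1, 1)],
   .leaf [(7, 3), (-12, 7), (7, 5), (-1, 1), (1, 1), (0, 1), (-19, 21), (21, 13), (-15, 7)],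
   .leaf [(3, 2), (-11, 15), (-3, 13), (1, 1), (-1, 1)],
   .leaf [(3, 2), (-1, 1), (4, 5), (-3, 13), (-1, 15), (12, 13), (-9, 5)],
   .leaf [(42, 13), (-83, 35), (49, 26), (-31, 35), (7, 13), (9, 28), (-35, 39), (12, 7), (-7, 3), (3, 1), (-2, 1), (27, 13), (-43, 15)],
   .leaf [(7, 5), (-1, 1), (2, 5), (7, 13), (-33, 28)],
   .leaf [(7, 5), (-23, 28), (7, 13), (1, 5), (-1, 1)],
   .leaf [(3, 2), (-1, 1), (1, 1), (0, 1), (-35, 39), (39, 28), (-7, 3)],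
   .leaf [(3, 7), (2, 5), (-1, 1)],
   .split 11,
   .leaf [(3, 2), (-27, 35), (-1, 11), (4, 5), (-1, 1)],
   .leaf [(9, 11), (1, 10), (-1, 1)],
   .leaf [(-1, 11), (-2, 7), (-3, 5)],
   .leaf [(3, 2), (-13, 21), (6, 11), (3, 7), (-15, 11), (13, 12), (-9, 5)],
   .leaf [(1, 1), (0, 1), (1, 3), (-3, 7), (-1, 11), (1, 5), (-1, 1)],
   .leaf [(3, 2), (-23, 35), (-1, 11), (3, 5), (-1, 1)],
   .leaf [(3, 2), (-31, 35), (-1, 11), (1, 1), (-1, 1)],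
   .leaf [(3, 2), (-1, 1), (7, 5), (-6, 11), (-1, 15), (9, 11), (-23, 15)],
   .leaf [(29, 21), (-3, 5), (3, 7), (1, 3), (6, 11), (-5, 7), (-1, 11), (6, 7), (-15, 11)],
   .leaf [(11, 4), (-9, 5), (3, 2), (-11, 15), (9, 11), (0, 1), (-1, 11), (33, 35), (-37, 22), (11, 5), (-31, 11)],
   .leaf [(3, 2), (-19, 35), (-1, 11), (5, 7), (-15, 11)],
   .split 13,
   .leaf [(17, 13), (-23, 35), (33, 52), (1, 3), (-3, 4), (7, 13), (-7, 5)],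
   .leaf [(3, 2), (-11, 15), (-3, 13), (1, 1), (-1, 1)],
   .leaf [(3, 2), (-1, 1), (4, 5), (-3, 13), (-1, 15), (12, 13), (-9, 5)],
   .leaf [(3, 1), (-2, 1), (17, 13), (-31, 35), (-1, 26), (3, 5), (-18, 13), (7, 3), (-3, 1)],
   .split 2]

def toks4 : List Tok :=
  [.leaf [(27, 13), (-4, 3), (15, 13), (-1, 4), (7, 13), (-9, 10), (-1, 21), (-3, 8), (107, 105), (-18, 13), (11, 21), (3, 13), (-5, 7), (17, 13), (-11, 5)],
   .leaf [(1, 1), (0, 1), (1, 3), (-3, 8), (-3, 7), (1, 2), (-1, 1)],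
   .leaf [(27, 13), (-11, 10), (7, 13), (1, 5), (-1, 1), (3, 2), (-23, 15)],
   .leaf [(3, 2), (-1, 1), (1, 1), (0, 1), (-9, 13), (13, 12), (-9, 5)],
   .leaf [(37, 39), (-3, 28), (-1, 5), (7, 13), (-3, 2)],
   .leaf [(6, 5), (-11, 21), (3, 13), (-3, 14), (-19, 39), (9, 10), (-1, 1)],
   .leaf [(57, 35), (-18, 13), (17, 15), (-3, 13), (4, 15), (3, 7), (-2, 3), (9, 7), (-11, 6)],
   .leaf [(1, 2), (3, 13), (-3, 7)],
   .leaf [(7, 13), (3, 10), (-1, 1)],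
   .leaf [(3, 2), (-1, 1), (1, 10), (7, 13), (-11, 20), (129, 91), (-31, 15)],
   .leaf [(3, 2), (-11, 15), (3, 7), (1, 5), (-1, 1)],
   .leaf [(3, 2), (-1, 1), (1, 1), (0, 1), (-1, 3), (3, 7), (-19, 15)],
   .leaf [(1, 1), (-3, 7), (-1, 6), (3, 5), (-1, 1)],
   .split 7,
   .leaf [(5, 3), (-9, 10), (5, 7), (-1, 5), (-5, 7), (6, 5), (-15, 7)],
   .leaf [(5, 3), (-6, 5), (5, 7), (-1, 2), (-3, 7), (5, 4), (-9, 5)],
   .leaf [(5, 3), (-3, 2), (9, 7), (-1, 3), (-3, 7), (5, 6), (-9, 5)],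
   .split 11,
   .leaf [(25, 11), (-51, 35), (15, 22), (-13, 21), (-3, 11), (20, 21), (-9, 5), (5, 3), (-12, 5)],
   .leaf [(-1, 6), (-3, 11), (-3, 7)],
   .leaf [(25, 11), (-9, 7), (1, 1), (0, 1), (-13, 15), (135, 77), (-43, 20)],
   .leaf [(1, 1), (-3, 11), (-4, 7)],
   .leaf [(15, 7), (-9, 5), (25, 21), (-3, 11), (1, 7), (15, 22), (-23, 15), (15, 11), (-34, 15)],
   .leaf [(1, 1), (0, 1), (1, 3), (-3, 11), (-5, 7)],
   .leaf [(1, 1), (0, 1), (-11, 15), (15, 22), (-11, 7)],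
   .leaf [(3, 2), (-1, 1), (1, 1), (-6, 7), (19, 33), (9, 28), (-37, 33)],
   .split 3,
   .leaf [(15, 22), (-27, 35), (5, 33), (6, 35), (-5, 9), (3, 10), (-25, 21)],
   .leaf [(3, 2), (-5, 9), (-3, 7), (1, 1), (-1, 1)],
   .leaf [(85, 21), (-183, 55), (115, 42), (-9, 5), (15, 7), (-4, 3), (9, 7), (-5, 9), (0, 1), (31, 45), (-45, 28), (29, 15), (-15, 7), (79, 30), (-225, 77), (157, 45), (-45, 11)],
   .leaf [(25, 11), (-25, 14), (69, 55), (-10, 21), (-3, 11), (5, 6), (-9, 5), (5, 3), (-21, 10)],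
   .leaf [(1, 1), (-2, 7), (-3, 11), (1, 2), (-1, 1)],
   .leaf [(3, 1), (-7, 3), (15, 7), (-7, 5), (5, 7), (0, 1), (-5, 7), (7, 5), (-15, 7), (7, 3), (-3, 1)],
   .split 11,
   .leaf [(5, 2), (-9, 5), (5, 4), (-15, 11), (31, 60), (15, 77), (-23, 30), (135, 77), (-41, 20), (25, 11), (-13, 5)],
   .leaf [(25, 11), (-11, 5), (15, 11), (-11, 15), (0, 1), (1, 1), (-1, 1), (13, 7), (-11, 4)],
   .leaf [(3, 1), (-13, 6), (135, 77), (-53, 60), (15, 77), (2, 5), (-15, 11), (3, 2), (-7, 3)],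
   .leaf [(5, 7), (-3, 10), (-5, 33), (9, 14), (-1, 1)],
   .leaf [(4, 7), (3, 11), (-1, 1)],
   .leaf [(17, 11), (-15, 14), (13, 15), (0, 1), (-3, 5), (10, 11), (-13, 7)],
   .leaf [(9, 5), (-5, 3), (9, 11), (1, 6), (-3, 7), (4, 3), (-15, 7)],
   .leaf [(3, 4), (-5, 33), (-3, 7)],
   .split 3,
   .leaf [(3, 5), (-15, 22), (-5, 21), (3, 11), (-10, 9)],
   .leaf [(9, 5), (-10, 9), (9, 11), (1, 9), (-9, 11), (4, 3), (-15, 7)],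
   .leaf [(15, 11), (-17, 45), (15, 14), (-27, 55), (5, 12), (21, 55), (-10, 9)],
   .leaf [(1, 1), (-1, 1), (5, 7), (-13, 20), (15, 77), (19, 30), (-15, 11)],
   .leaf [(5, 2), (-83, 55), (15, 28), (-27, 55), (-5, 42), (57, 55), (-10, 7), (9, 5), (-15, 7)],
   .split 13,
   .leaf [(55, 21), (-33, 20), (5, 7), (-3, 5), (0, 1), (1, 1), (-1, 1), (2, 1), (-33, 13)],
   .leaf [(9, 5), (-5, 3), (15, 13), (-11, 30), (-15, 91), (23, 20), (-25, 13)],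
   .leaf [(15, 13), (-1, 1), (1, 1), (0, 1), (-3, 5), (5, 7), (-33, 20)],
   .leaf [(3, 2), (-1, 1), (1, 1), (0, 1), (-1, 3), (9, 13), (-11, 7)],
   .leaf [(6, 5), (-5, 13), (9, 14), (1, 3), (-15, 13)],
   .split 2,
   .leaf [(11, 5), (-25, 14), (59, 65), (-5, 8), (-1, 13), (1, 1), (-1, 1), (3, 2), (-15, 7)],
   .leaf [(3, 2), (-1, 1), (1, 1), (0, 1), (-1, 5), (5, 8), (-11, 7)],
   .leaf [(5, 3), (-12, 13), (3, 7), (-5, 13), (-11, 35), (25, 26), (-9, 5)],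
   .leaf [(3, 2), (-1, 1), (1, 1), (0, 1), (3, 5), (-5, 13), (-1, 7), (9, 13), (-29, 21)],
   .leaf [(5, 3), (-9, 10), (15, 13), (-1, 4), (-9, 13), (5, 6), (-9, 5)]]

def toks5 : List Tok :=
  [.leaf [(3, 2), (-1, 1), (1, 1), (0, 1), (1, 3), (3, 28), (-43, 39)],
   .leaf [(30, 7), (-17, 5), (25, 7), (-27, 10), (55, 21), (-33, 20), (5, 7), (-3, 5), (0, 1), (1, 1), (-1, 1), (3, 2), (-7, 3), (3, 1), (-13, 4), (55, 13), (-39, 10), (125, 39), (-78, 35), (55, 39), (-39, 35), (25, 12), (-9, 5), (5, 2), (-13, 5), (30, 13), (-65, 21), (51, 13), (-13, 3)],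
   .leaf [(3, 2), (-1, 1), (1, 1), (0, 1), (-1, 5), (15, 52), (-25, 21)],
   .leaf [(3, 1), (-2, 1), (9, 7), (-5, 6), (-15, 91), (41, 60), (-135, 91), (11, 5), (-5, 2)],
   .split 7,
   .leaf [(1, 1), (-2, 5), (-3, 7)],
   .leaf [(5, 1), (-4, 1), (21, 5), (-23, 7), (14, 5), (-13, 7), (7, 5), (-3, 7), (0, 1), (1, 1), (-9, 5), (8, 3), (-3, 1), (3, 1), (-11, 3), (9, 2), (-5, 1)],
   .leaf [(13, 15), (-3, 7), (1, 6), (3, 5), (-3, 2)],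
   .split 2,
   .leaf [(31, 21), (-3, 5), (1, 1), (-1, 5), (-1, 4), (5, 7), (-9, 8)],
   .leaf [(3, 1), (-2, 1), (13, 7), (-9, 8), (1, 3), (-3, 7), (-1, 4), (33, 35), (-41, 24), (81, 35), (-19, 6)],
   .leaf [(1, 1), (-1, 5), (-3, 7), (1, 2), (-1, 1)],
   .split 2,
   .leaf [(3, 1), (-7, 3), (9, 4), (-19, 15), (3, 8), (9, 35), (-13, 12), (57, 35), (-61, 24)],
   .leaf [(12, 7), (-11, 15), (3, 8), (-3, 7), (-1, 2), (9, 7), (-5, 3)],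
   .leaf [(9, 7), (-1, 3), (-3, 7), (3, 5), (-3, 2)],
   .split 7,
   .leaf [(3, 1), (-2, 1), (9, 7), (-3, 5), (-1, 7), (4, 5), (-11, 7), (11, 5), (-3, 1)],
   .split 11,
   .leaf [(2, 1), (-1, 1), (1, 1), (0, 1), (-1, 3), (12, 11), (-9, 5)],
   .leaf [(2, 1), (-1, 1), (1, 1), (0, 1), (1, 3), (-3, 10), (-3, 11), (7, 6), (-9, 5)],
   .leaf [(9, 11), (-1, 12), (9, 35), (2, 11), (-1, 1)],
   .leaf [(39, 22), (-17, 21), (9, 11), (3, 28), (-29, 33), (9, 7), (-31, 15)],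
   .leaf [(12, 11), (-1, 5), (1, 28), (9, 11), (-5, 3)],
   .leaf [(3, 1), (-7, 3), (3, 2), (-1, 1), (1, 2), (-3, 7), (-5, 11), (8, 7), (-19, 11), (19, 7), (-3, 1)],
   .leaf [(3, 5), (-3, 11), (-1, 2)],
   .leaf [(17, 11), (-6, 5), (1, 3), (3, 5), (-1, 2), (7, 5), (-7, 4)],
   .leaf [(5, 2), (-19, 11), (13, 14), (-1, 5), (-1, 2), (7, 5), (-23, 11)],
   .leaf [(23, 14), (-39, 55), (1, 3), (3, 20), (-29, 33), (6, 7), (-19, 11)],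
   .leaf [(3, 1), (-7, 3), (9, 4), (-11, 7), (9, 11), (0, 1), (-29, 33), (33, 20), (-23, 11), (11, 5), (-3, 1)],
   .leaf [(9, 7), (-1, 2), (3, 5), (1, 3), (-6, 5)],
   .leaf [(2, 1), (-11, 7), (3, 5), (-1, 7), (-4, 5), (9, 7), (-11, 5)],
   .leaf [(2, 1), (-1, 1), (1, 1), (-1, 7), (-2, 5), (9, 7), (-9, 5)],
   .leaf [(2, 1), (-1, 1), (1, 1), (0, 1), (-3, 7), (7, 6), (-9, 5)],
   .leaf [(9, 5), (-4, 3), (3, 5), (-1, 2), (-1, 5), (3, 4), (-11, 7)],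
   .leaf [(1, 1), (0, 1), (1, 3), (-3, 4), (-1, 5), (1, 2), (-1, 1)],
   .split 3,
   .split 2,
   .split 5,
   .leaf [(2, 1), (-1, 1), (1, 1), (0, 1), (-1, 3), (3, 4), (-7, 5)],
   .split 7,
   .leaf [(1, 1), (0, 1), (-1, 3), (3, 10), (-9, 7)],
   .split 11,
   .leaf [(11, 7), (-7, 10), (3, 11), (-1, 3), (-3, 5), (1, 2), (-7, 5)],
   .leaf [(21, 22), (-1, 7), (0, 1), (-1, 3), (-3, 5), (1, 2), (-7, 5)],
   .leaf [(7, 11), (-3, 14), (7, 15), (3, 11), (-1, 1)],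
   .leaf [(1, 2), (3, 11), (-3, 5)],
   .leaf [(2, 1), (-1, 1), (1, 1), (0, 1), (-1, 3), (9, 10), (-17, 11)],
   .leaf [(27, 14), (-7, 5), (1, 2), (1, 5), (-7, 11), (8, 7), (-21, 11)],
   .leaf [(7, 3), (-3, 2), (1, 1), (0, 1), (-1, 3), (3, 5), (-17, 11), (9, 4), (-3, 1)],
   .leaf [(7, 3), (-3, 2), (1, 1), (-7, 11), (-9, 35), (21, 22), (-23, 21), (21, 11), (-15, 7)],
   .leaf [(3, 7), (0, 1), (-19, 21), (21, 22), (-1, 15), (3, 11), (-7, 6)],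
   .leaf [(1, 1), (0, 1), (-5, 7), (7, 11), (-3, 2)],
   .leaf [(11, 7), (-7, 5), (1, 2), (1, 5), (-3, 4), (11, 15), (-63, 44)],
   .leaf [(3, 1), (-2, 1), (9, 5), (-9, 7), (2, 5), (1, 7), (-1, 1), (11, 7), (-12, 5)],
   .leaf [(11, 5), (-9, 7), (4, 5), (1, 7), (-3, 5), (11, 7), (-2, 1)],
   .leaf [(6, 5), (-1, 3), (-3, 5), (1, 2), (-9, 7)],
   .split 13,
   .split 2,
   .leaf [(3, 1), (-2, 1), (11, 5), (-21, 13), (4, 3), (-15, 13), (1, 4), (9, 13), (-11, 8), (11, 7), (-9, 4), (7, 3), (-3, 1)]]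

def toks6 : List Tok :=
  [.leaf [(9, 8), (-1, 3), (-3, 5), (1, 2), (-7, 5)],
   .leaf [(1, 2), (1, 5), (1, 7), (4, 13), (-3, 5)],
   .leaf [(33, 14), (-5, 3), (18, 13), (-3, 7), (4, 13), (11, 35), (-27, 26), (9, 5), (-31, 13)],
   .leaf [(9, 13), (1, 12), (-9, 35), (4, 13), (-1, 1)],
   .leaf [(7, 3), (-3, 2), (1, 1), (0, 1), (-1, 3), (9, 13), (-6, 5), (11, 7), (-9, 4)],
   .leaf [(9, 13), (-3, 4), (1, 5), (1, 2), (-7, 5)],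
   .leaf [(69, 65), (-11, 28), (1, 5), (1, 2), (-3, 5), (-1, 3), (-3, 10), (9, 13), (-7, 6)],
   .leaf [(3, 7), (-3, 13), (-1, 2)],
   .leaf [(1, 1), (0, 1), (-1, 3), (3, 5), (4, 13), (-1, 7), (-1, 2)],
   .leaf [(3, 1), (-31, 13), (45, 28), (-37, 39), (3, 14), (19, 39), (-33, 28), (25, 13), (-18, 7)],
   .leaf [(9, 10), (-1, 3), (-3, 5), (1, 2), (1, 5), (4, 13), (-9, 7)],
   .leaf [(7, 3), (-3, 2), (1, 1), (0, 1), (-3, 13), (13, 21), (-99, 65), (13, 6), (-3, 1)],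
   .leaf [(47, 39), (-33, 35), (1, 12), (3, 7), (-1, 2), (1, 1), (-3, 2)],
   .leaf [(2, 1), (-1, 1), (1, 1), (0, 1), (-1, 3), (3, 5), (-9, 7)],
   .split 7,
   .leaf [(3, 2), (-3, 5), (3, 7), (1, 3), (-9, 7)],
   .split 13,
   .leaf [(7, 3), (-27, 20), (17, 13), (-7, 10), (-3, 13), (3, 5), (-18, 13)],
   .leaf [(17, 13), (-5, 7), (1, 2), (3, 7), (-9, 10)],
   .leaf [(3, 2), (-11, 13), (4, 7), (3, 13), (-2, 3), (3, 7), (-17, 15)],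
   .leaf [(9, 5), (-1, 1), (1, 1), (0, 1), (-19, 39), (39, 35), (-11, 6)],
   .leaf [(3, 2), (-3, 5), (2, 3), (-3, 13), (-1, 5), (3, 7), (-17, 15)],
   .leaf [(18, 7), (-111, 65), (43, 42), (-27, 65), (-11, 21), (6, 5), (-31, 21), (9, 4), (-3, 1)],
   .leaf [(-1, 6), (-3, 13), (-3, 5)],
   .leaf [(33, 14), (-61, 39), (27, 28), (-5, 39), (-3, 7), (17, 13), (-21, 10), (7, 3), (-3, 1)],
   .leaf [(7, 3), (-33, 20), (17, 13), (-15, 28), (-5, 39), (6, 7), (-61, 39), (9, 4), (-3, 1)],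
   .leaf [(9, 5), (-1, 1), (1, 1), (0, 1), (-1, 3), (9, 13), (-17, 12)],
   .leaf [(5, 3), (-9, 7), (1, 2), (3, 7), (-17, 15), (3, 2), (-7, 5), (17, 13), (-15, 7)],
   .leaf [(7, 3), (-3, 2), (1, 1), (-1, 26), (-17, 35), (17, 13), (-9, 4)],
   .leaf [(5, 3), (-81, 91), (3, 20), (3, 7), (-18, 13)],
   .leaf [(1, 1), (-1, 2), (3, 7), (1, 5), (-1, 1)],
   .leaf [(1, 1), (0, 1), (-1, 3), (3, 7), (1, 4), (1, 5), (-1, 1)],
   .leaf [(3, 2), (-3, 5), (-1, 6), (3, 7), (-13, 15)],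
   .split 3,
   .leaf [(7, 3), (-3, 2), (1, 1), (0, 1), (-3, 7), (7, 9), (-12, 7)],
   .leaf [(3, 2), (-3, 5), (7, 18), (3, 7), (-7, 5)],
   .leaf [(9, 5), (-1, 1), (1, 1), (0, 1), (-7, 9), (9, 7), (-14, 9)],
   .leaf [(3, 7), (2, 5), (-1, 1)],
   .split 7,
   .leaf [(2, 1), (-1, 1), (1, 1), (0, 1), (-3, 5), (5, 6), (-9, 7)],
   .split 3,
   .leaf [(1, 1), (0, 1), (-3, 5), (5, 9), (-3, 2)],
   .leaf [(9, 4), (-19, 9), (45, 28), (-13, 15), (0, 1), (1, 1), (-9, 7), (13, 6), (-3, 1)],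
   .leaf [(3, 5), (0, 1), (1, 1), (-3, 7), (-5, 9)],
   .leaf [(7, 3), (-3, 2), (1, 1), (0, 1), (-5, 7), (7, 5), (-15, 7)],
   .split 11,
   .leaf [(1, 1), (-1, 2), (3, 11), (2, 7), (-1, 1)],
   .leaf [(5, 2), (-53, 35), (10, 11), (-9, 35), (-15, 22), (1, 1), (-3, 2), (7, 3), (-3, 1)],
   .leaf [(31, 11), (-51, 28), (37, 33), (-9, 14), (3, 11), (1, 7), (-1, 1), (1, 1), (-3, 2), (7, 3), (-3, 1)],
   .leaf [(37, 33), (-9, 28), (-19, 33), (6, 7), (-1, 1), (1, 1), (-3, 2)],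
   .leaf [(5, 2), (-11, 5), (15, 11), (-11, 15), (0, 1), (1, 1), (-3, 2), (7, 3), (-3, 1)],
   .leaf [(5, 2), (-17, 7), (17, 11), (-6, 7), (3, 11), (5, 7), (-1, 1), (1, 1), (-3, 2), (7, 3), (-3, 1)],
   .leaf [(34, 15), (-15, 11), (23, 15), (-15, 22), (-1, 7), (3, 11), (-25, 21), (9, 5), (-15, 7)],
   .leaf [(4, 7), (3, 11), (-1, 1)],
   .leaf [(7, 3), (-15, 11), (13, 15), (0, 1), (-3, 5), (15, 11), (-9, 4)],
   .leaf [(3, 7), (3, 11), (1, 6)],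
   .leaf [(12, 5), (-5, 3), (9, 5), (-20, 21), (3, 11), (13, 21), (-15, 22), (51, 35), (-25, 11)],
   .leaf [(9, 5), (-5, 6), (3, 7), (1, 3), (-9, 7), (3, 2), (-5, 3)],
   .leaf [(9, 5), (-5, 4), (3, 7), (1, 2), (-5, 7), (6, 5), (-5, 3)],
   .leaf [(15, 7), (-6, 5), (5, 7), (1, 5), (-5, 7), (9, 10), (-5, 3)]]

def toks7 : List Tok :=
  [.split 13,
   .split 7,
   .leaf [(1, 1), (-3, 5), (1, 6), (3, 7), (-1, 1)],
   .leaf [(1, 1), (-1, 5), (-7, 13), (23, 28), (-7, 5)],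
   .leaf [(1, 1), (-2, 5), (-3, 7)],
   .leaf [(1, 1), (-1, 5), (-2, 13), (19, 35), (-3, 2)],
   .leaf [(11, 6), (-33, 35), (19, 39), (9, 20), (-7, 13), (-1, 5), (3, 13), (2, 3), (-9, 7)],
   .leaf [(1, 1), (-1, 5), (-3, 7), (11, 15), (-3, 2)],
   .leaf [(23, 15), (-12, 13), (1, 21), (9, 13), (-3, 2)],
   .split 7,
   .leaf [(2, 1), (-1, 1), (1, 1), (-3, 5), (-9, 91), (11, 12), (-15, 13)],
   .leaf [(1, 1), (-3, 5), (8, 13), (1, 7), (-1, 1)],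
   .leaf [(7, 3), (-12, 7), (35, 39), (-9, 28), (-7, 13), (43, 28), (-7, 5), (9, 4), (-3, 1)],
   .leaf [(1, 1), (-2, 5), (-3, 7)],
   .leaf [(1, 1), (-3, 5), (-2, 13), (31, 35), (-3, 2)],
   .leaf [(2, 1), (-1, 1), (1, 1), (-3, 5), (1, 26), (31, 35), (-17, 13)],
   .leaf [(1, 1), (-1, 5), (-3, 7), (11, 15), (-3, 2)],
   .leaf [(1, 1), (-1, 1), (3, 13), (11, 15), (-3, 2)],
   .leaf [(31, 15), (-3, 2), (1, 1), (-1, 10), (-7, 13), (6, 5), (-27, 13)],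
   .split 11,
   .leaf [(1, 1), (-1, 2), (-3, 13), (29, 33), (-3, 2)],
   .leaf [(1, 1), (-1, 2), (1, 13), (1, 11), (-3, 5)],
   .leaf [(1, 1), (-1, 2), (5, 13), (1, 11), (-4, 5)],
   .leaf [(1, 1), (-1, 2), (9, 13), (1, 11), (-1, 1)],
   .leaf [(1, 1), (-1, 10), (-9, 11)],
   .leaf [(23, 15), (-9, 11), (1, 15), (6, 11), (-7, 5), (1, 1), (-3, 2)],
   .split 3,
   .leaf [(9, 4), (-7, 5), (1, 1), (-1, 2), (3, 11), (13, 18), (-93, 55)],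
   .leaf [(1, 11), (3, 5), (-9, 11), (49, 45), (-9, 26), (-1, 15), (-12, 13)],
   .leaf [(21, 10), (-11, 9), (3, 13), (2, 9), (-15, 13), (5, 3), (-27, 13)],
   .leaf [(7, 12), (-51, 65), (1, 11), (2, 5), (-9, 11)],
   .leaf [(47, 15), (-24, 11), (5, 3), (-15, 13), (29, 33), (3, 26), (-23, 33), (18, 13), (-25, 11), (29, 13), (-63, 22)],
   .leaf [(1, 1), (0, 1), (-9, 11), (11, 15), (-3, 2)],
   .leaf [(29, 20), (-7, 13), (-21, 55), (1, 6), (-9, 11)],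
   .split 7,
   .leaf [(1, 1), (-2, 5), (-3, 7)],
   .leaf [(1, 1), (0, 1), (-1, 3), (3, 14), (-41, 39), (27, 35), (-3, 2)],
   .leaf [(1, 1), (-9, 10), (19, 39), (3, 14), (-3, 13), (11, 21), (-6, 5)],
   .leaf [(1, 1), (-1, 5), (-3, 7), (11, 15), (-3, 2)],
   .leaf [(9, 13), (-1, 4), (-5, 7)],
   .leaf [(1, 1), (-3, 5), (1, 6), (3, 7), (-1, 1)],
   .leaf [(7, 5), (-3, 7), (0, 1), (11, 21), (21, 65), (-1, 4), (-7, 13), (21, 20), (-13, 7)],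
   .leaf [(8, 3), (-9, 5), (1, 1), (0, 1), (-7, 13), (13, 10), (-27, 13), (13, 6), (-3, 1)],
   .split 7,
   .leaf [(1, 1), (-3, 5), (1, 6), (3, 7), (-1, 1)],
   .leaf [(33, 28), (-7, 13), (-2, 5), (1, 1), (-7, 5)],
   .leaf [(1, 1), (-2, 5), (-3, 7)],
   .leaf [(51, 35), (-41, 39), (9, 10), (-7, 13), (-2, 5), (1, 1), (-3, 2)],
   .leaf [(29, 12), (-129, 91), (9, 10), (-7, 13), (-2, 5), (1, 1), (-7, 5), (9, 4), (-3, 1)],
   .leaf [(1, 1), (-1, 5), (-3, 7), (11, 15), (-3, 2)],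
   .leaf [(3, 2), (-11, 21), (9, 13), (-5, 6), (3, 7), (1, 3), (-9, 7)],
   .leaf [(9, 5), (-12, 13), (1, 15), (3, 13), (-4, 5), (1, 1), (-3, 2)],
   .leaf [(1, 1), (0, 1), (-1, 3), (3, 13), (-6, 5)],
   .leaf [(1, 1), (-3, 10), (-7, 13)],
   .split 7,
   .leaf [(12, 13), (-1, 7), (-2, 13), (3, 5), (-29, 21)],
   .leaf [(11, 6), (-9, 7), (2, 3), (-3, 7), (-4, 15), (3, 13), (-17, 15), (18, 13), (-57, 35)],
   .leaf [(12, 7), (-17, 15), (3, 13), (3, 5), (-61, 39)],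
   .split 3,
   .leaf [(7, 3), (-3, 2), (19, 15), (-3, 7), (1, 3), (3, 7), (-11, 9), (12, 7), (-33, 13)]]

def toks8 : List Tok :=
  [.leaf [(9, 14), (-3, 5), (1, 21), (9, 20), (-11, 9)],
   .leaf [(3, 2), (-5, 7), (-1, 4), (39, 35), (-11, 9)],
   .leaf [(12, 7), (-51, 65), (1, 6), (3, 7), (-1, 1)],
   .leaf [(7, 3), (-129, 91), (49, 60), (-9, 91), (-7, 10), (1, 1), (-3, 2)],
   .leaf [(1, 1), (-2, 5), (-3, 7)],
   .split 7,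
   .leaf [(1, 1), (-2, 5), (-3, 7)],
   .leaf [(3, 5), (1, 21), (-9, 20), (-7, 13), (1, 5), (3, 13), (-2, 3)],
   .leaf [(3, 2), (-7, 13), (1, 5), (3, 28), (-37, 39)],
   .leaf [(1, 1), (-1, 5), (-3, 7), (11, 15), (-3, 2)],
   .leaf [(3, 2), (-7, 13), (1, 5), (11, 26), (-9, 7)],
   .leaf [(1, 1), (-3, 5), (1, 6), (3, 7), (-1, 1)],
   .leaf [(21, 5), (-23, 7), (14, 5), (-27, 13), (3, 2), (-7, 13), (1, 5), (3, 13), (-2, 3), (21, 13), (-53, 21), (42, 13), (-79, 21)],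
   .split 5,
   .leaf [(5, 2), (-11, 5), (5, 4), (-3, 5), (0, 1), (1, 1), (-3, 2), (7, 3), (-3, 1)],
   .leaf [(1, 1), (-1, 4), (-3, 5)],
   .split 7,
   .split 13,
   .leaf [(2, 1), (-1, 1), (1, 1), (0, 1), (-1, 7), (7, 10), (-19, 13)],
   .leaf [(9, 5), (-4, 3), (3, 5), (1, 3), (0, 1), (-3, 7), (-7, 13), (1, 2), (-19, 13)],
   .leaf [(9, 4), (-49, 39), (6, 7), (-7, 39), (-9, 35), (7, 6), (-27, 13)],
   .leaf [(21, 13), (-9, 14), (7, 39), (3, 4), (-19, 13), (7, 5), (-11, 7)],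
   .leaf [(21, 13), (-3, 4), (1, 1), (0, 1), (-19, 21)],
   .split 2,
   .leaf [(1, 1), (-3, 13), (-1, 12), (-3, 5), (-7, 24), (27, 35), (-7, 4)],
   .leaf [(1, 1), (-3, 13), (-5, 8)],
   .leaf [(7, 3), (-3, 2), (1, 1), (0, 1), (-17, 21), (21, 13), (-33, 14)],
   .leaf [(3, 1), (-2, 1), (21, 13), (-15, 14), (7, 39), (9, 28), (-49, 39), (12, 7), (-7, 3)],
   .leaf [(2, 1), (-1, 1), (1, 1), (0, 1), (-5, 7), (21, 13), (-11, 5)],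
   .leaf [(21, 13), (-41, 42), (21, 65), (4, 7), (-7, 5), (2, 1), (-1, 1), (1, 1), (-7, 4)],
   .leaf [(2, 1), (-1, 1), (1, 1), (0, 1), (-7, 13), (13, 14), (-7, 5)],
   .leaf [(7, 4), (-93, 91), (7, 30), (27, 91), (-77, 60), (21, 13), (-17, 7)],
   .leaf [(31, 7), (-7, 2), (19, 7), (-21, 10), (37, 21), (-21, 20), (27, 91), (7, 15), (-9, 13), (4, 3), (-21, 13), (41, 21), (-63, 26), (103, 35), (-49, 13)],
   .split 11,
   .leaf [(1, 1), (0, 1), (1, 3), (-3, 11), (-2, 5), (7, 11), (-3, 2)],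
   .leaf [(11, 7), (-1, 1), (1, 1), (0, 1), (-3, 11), (11, 15), (-18, 11)],
   .leaf [(3, 2), (-19, 33), (3, 35), (3, 4), (-5, 3)],
   .leaf [(9, 14), (3, 11), (-1, 7), (-3, 10), (-19, 33)],
   .leaf [(4, 7), (3, 11), (-1, 1)],
   .leaf [(5, 2), (-13, 7), (17, 11), (-3, 5), (-1, 22), (23, 35), (-18, 11), (7, 3), (-3, 1)],
   .leaf [(3, 7), (3, 11), (1, 6)],
   .leaf [(9, 7), (-8, 15), (-3, 11), (1, 5), (-1, 2), (1, 1), (-1, 1)],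
   .leaf [(1, 1), (-1, 2), (3, 11), (2, 7), (-1, 1)],
   .leaf [(27, 11), (-7, 4), (1, 1), (-3, 11), (-7, 15), (12, 11), (-29, 15)],
   .leaf [(1, 1), (-1, 4), (3, 11), (1, 7), (-1, 1)],
   .leaf [(3, 1), (-2, 1), (9, 7), (-3, 5), (-1, 7), (4, 5), (-11, 7), (11, 5), (-3, 1)],
   .leaf [(9, 4), (-9, 7), (5, 3), (-6, 7), (11, 15), (3, 14), (-17, 15), (3, 4), (-5, 3)],
   .leaf [(1, 5), (-1, 7), (-1, 2)],
   .leaf [(2, 1), (-11, 7), (3, 5), (-1, 7), (-4, 5), (9, 7), (-11, 5)],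
   .leaf [(1, 1), (-1, 7), (-3, 4)],
   .split 7,
   .leaf [(6, 5), (-1, 3), (-3, 5), (1, 2), (-9, 7)],
   .split 11,
   .leaf [(1, 1), (-1, 2), (3, 7), (1, 33), (-3, 4)],
   .leaf [(9, 10), (-1, 3), (-3, 5), (1, 2), (1, 5), (-2, 11), (-3, 7), (2, 3), (-9, 7)],
   .leaf [(31, 15), (-9, 7), (39, 55), (1, 42), (-9, 11), (17, 21), (-39, 22)],
   .leaf [(19, 11), (-27, 28), (1, 33), (3, 14), (-9, 11), (1, 1), (-7, 4)],
   .leaf [(1, 1), (-1, 4), (3, 11), (-1, 15), (-3, 4)],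
   .leaf [(7, 3), (-3, 2), (1, 1), (0, 1), (-1, 3), (9, 10), (-9, 7), (5, 4), (-21, 11), (13, 6), (-3, 1)],
   .leaf [(99, 35), (-17, 6), (15, 7), (-5, 3), (6, 7), (-11, 15), (3, 11), (11, 20), (-9, 7), (11, 6), (-21, 11), (11, 4), (-37, 11)]]

def toks9 : List Tok :=
  [.leaf [(1, 1), (0, 1), (-1, 3), (3, 11), (-5, 4)],
   .leaf [(23, 11), (-7, 5), (1, 2), (1, 5), (-13, 14), (19, 11), (-5, 2)],
   .leaf [(1, 1), (-3, 4), (7, 15), (3, 11), (-1, 1)],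
   .leaf [(1, 2), (3, 11), (-3, 5)],
   .leaf [(2, 1), (-1, 1), (1, 1), (0, 1), (-1, 3), (3, 5), (-9, 7)],
   .leaf [(1, 1), (-1, 7), (-3, 4)],
   .split 13,
   .leaf [(7, 4), (-11, 13), (9, 20), (7, 39), (-33, 35), (14, 13), (-1, 5), (9, 13), (-3, 2), (21, 13), (-17, 7)],
   .leaf [(13, 21), (0, 1), (5, 7), (-7, 13), (-3, 14), (7, 39), (-21, 20)],
   .leaf [(11, 12), (-3, 13), (-1, 6), (9, 13), (-3, 5)],
   .leaf [(11, 7), (-7, 5), (1, 2), (-3, 13), (-7, 12), (123, 91), (-21, 10)],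
   .leaf [(8, 5), (-11, 13), (3, 10), (-1, 3), (-3, 5), (1, 2), (-7, 5), (6, 7), (-21, 13)],
   .leaf [(7, 4), (-29, 35), (14, 13), (-3, 35), (7, 39), (3, 4), (-11, 13), (7, 5), (-9, 7)],
   .leaf [(21, 13), (-3, 4), (1, 1), (0, 1), (-19, 21)],
   .leaf [(7, 4), (-9, 7), (28, 15), (-21, 13), (1, 1), (-7, 26), (-17, 35), (14, 13), (-69, 35)],
   .leaf [(1, 1), (-1, 2), (9, 13), (-1, 15), (-3, 4)],
   .leaf [(3, 1), (-2, 1), (21, 13), (-15, 14), (7, 39), (9, 28), (-49, 39), (12, 7), (-7, 3)],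
   .leaf [(7, 3), (-3, 2), (1, 1), (0, 1), (-5, 7), (14, 13), (-51, 35), (77, 39), (-18, 7)],
   .leaf [(11, 3), (-3, 1), (3, 1), (-2, 1), (7, 5), (-9, 7), (21, 65), (11, 42), (-63, 65), (38, 21), (-21, 13), (17, 7), (-42, 13)],
   .leaf [(21, 13), (-13, 21), (0, 1), (7, 39), (-39, 35), (14, 13), (-13, 7)],
   .leaf [(1, 1), (-3, 4), (-1, 15), (6, 7), (-1, 1)],
   .leaf [(11, 12), (-3, 5), (1, 7), (4, 5), (-9, 7)],
   .split 7,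
   .leaf [(1, 1), (-1, 7), (-3, 4)],
   .split 3,
   .leaf [(3, 2), (-3, 5), (1, 9), (3, 4), (-5, 3)],
   .leaf [(9, 5), (-1, 1), (1, 1), (0, 1), (-7, 9), (9, 7), (-14, 9)],
   .leaf [(1, 1), (-3, 4), (1, 9), (3, 5), (-1, 1)],
   .leaf [(3, 7), (2, 5), (-1, 1)],
   .leaf [(3, 2), (-3, 5), (3, 7), (1, 3), (-9, 7)],
   .leaf [(9, 4), (-9, 7), (1, 2), (3, 7), (-17, 15), (3, 2), (-5, 3)],
   .leaf [(1, 1), (-1, 2), (3, 7), (1, 5), (-1, 1)],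
   .leaf [(29, 21), (-9, 20), (-11, 21), (3, 5), (-1, 1), (1, 1), (-3, 2)],
   .split 5,
   .leaf [(1, 2), (1, 5), (-1, 3)],
   .split 7,
   .split 2,
   .leaf [(2, 1), (-1, 1), (1, 1), (-1, 10), (1, 21), (19, 20), (-13, 7)],
   .leaf [(1, 1), (-1, 4), (-3, 5)],
   .leaf [(1, 1), (-3, 5), (2, 7), (1, 3), (-1, 1)],
   .leaf [(1, 1), (-2, 5), (-3, 7)],
   .leaf [(5, 3), (-1, 1), (1, 1), (-1, 5), (-3, 7), (6, 5), (-13, 7)],
   .leaf [(2, 1), (-1, 1), (1, 1), (0, 1), (-3, 7), (7, 5), (-7, 3)],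
   .leaf [(1, 1), (-1, 2), (-1, 7), (2, 3), (-1, 1)],
   .split 11,
   .leaf [(9, 7), (-4, 11), (-3, 5), (1, 1), (-1, 1)],
   .leaf [(9, 5), (-14, 11), (1, 3), (7, 11), (-3, 2)],
   .leaf [(1, 1), (-1, 5), (-4, 11), (3, 7), (-1, 1)],
   .leaf [(9, 5), (-3, 2), (1, 1), (0, 1), (-9, 11), (11, 10), (-13, 7)],
   .split 3,
   .leaf [(29, 55), (4, 9), (1, 5), (-4, 11), (-3, 7)],
   .leaf [(5, 9), (2, 7), (-1, 1)],
   .leaf [(7, 5), (-2, 3), (1, 5), (1, 11), (-7, 9), (1, 2), (-11, 9)],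
   .leaf [(5, 2), (-13, 7), (4, 3), (-1, 1), (5, 7), (3, 11), (-6, 7), (17, 11), (-17, 7)],
   .leaf [(1, 1), (-1, 1), (2, 7), (23, 33), (-8, 5)],
   .leaf [(1, 5), (1, 6), (-1, 7), (3, 11), (9, 14), (-13, 55), (-2, 3)],
   .leaf [(1, 1), (-1, 10), (-9, 11)],
   .leaf [(10, 11), (1, 21), (-1, 1)],
   .leaf [(2, 3), (1, 11), (-1, 15), (2, 7), (-1, 1)],
   .leaf [(2, 3), (1, 5), (-1, 1)]]

def toks10 : List Tok :=
  [.leaf [(1, 1), (-1, 2), (1, 5), (1, 3), (-1, 1)],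
   .split 7,
   .split 11,
   .leaf [(2, 1), (-1, 1), (1, 1), (0, 1), (-5, 11), (11, 10), (-5, 3)],
   .leaf [(5, 3), (-1, 1), (1, 1), (-3, 7), (4, 11), (13, 21), (-17, 11)],
   .leaf [(15, 7), (-9, 5), (15, 11), (-7, 10), (5, 33), (5, 7), (-4, 3), (11, 7), (-5, 2)],
   .leaf [(4, 3), (-5, 11), (-1, 2), (1, 1), (-1, 1)],
   .leaf [(2, 1), (-1, 1), (1, 1), (-1, 7), (5, 33), (4, 5), (-5, 3)],
   .leaf [(1, 1), (-3, 11), (-4, 7)],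
   .split 2,
   .leaf [(1, 1), (-1, 7), (-3, 4)],
   .leaf [(1, 1), (-5, 7), (13, 20), (5, 33), (-1, 1)],
   .leaf [(5, 2), (-17, 11), (2, 3), (-5, 11), (-1, 15), (10, 11), (-23, 15), (25, 11), (-3, 1)],
   .split 13,
   .leaf [(45, 13), (-5, 2), (15, 7), (-15, 13), (2, 7), (25, 39), (-79, 55), (80, 39), (-157, 55)],
   .leaf [(1, 1), (-5, 7), (3, 10), (5, 13), (-1, 1)],
   .leaf [(1, 2), (1, 13), (-1, 11)],
   .leaf [(2, 1), (-1, 1), (1, 1), (0, 1), (-3, 5), (20, 13), (-7, 3)],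
   .leaf [(19, 11), (-10, 13), (7, 15), (5, 13), (-2, 5), (5, 7), (-4, 3)],
   .leaf [(1, 1), (-4, 7), (-1, 13), (2, 3), (-1, 1)],
   .leaf [(13, 15), (-5, 11), (1, 2), (13, 33), (-10, 13)],
   .leaf [(10, 11), (1, 13), (-3, 11), (-2, 7), (1, 1), (0, 1), (-3, 5)],
   .leaf [(17, 10), (-5, 7), (5, 26), (27, 35), (-15, 13)],
   .leaf [(41, 13), (-55, 21), (121, 65), (-15, 14), (1, 1), (0, 1), (3, 5), (5, 13), (-17, 15), (20, 13), (-83, 35), (95, 39), (-41, 14)],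
   .leaf [(20, 13), (-17, 21), (4, 11), (5, 21), (-107, 110), (95, 91), (-9, 5)],
   .leaf [(1, 1), (-1, 13), (-6, 7)],
   .leaf [(1, 1), (-2, 7), (-1, 13), (1, 3), (-1, 1)],
   .leaf [(1, 1), (-1, 1), (1, 3), (7, 11), (-3, 2)],
   .leaf [(2, 1), (-1, 1), (1, 1), (0, 1), (-1, 5), (10, 11), (-5, 3)],
   .leaf [(5, 3), (-1, 1), (1, 1), (0, 1), (-1, 5), (5, 7), (-8, 5)],
   .leaf [(2, 1), (-1, 1), (1, 1), (0, 1), (-5, 7), (7, 5), (-5, 3)],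
   .leaf [(1, 1), (-1, 2), (-1, 7), (2, 3), (-1, 1)],
   .split 11,
   .leaf [(2, 1), (-1, 1), (1, 1), (0, 1), (-1, 5), (10, 11), (-5, 3)],
   .leaf [(2, 1), (-1, 1), (1, 1), (0, 1), (-5, 11), (11, 10), (-5, 3)],
   .leaf [(8, 7), (-5, 33), (1, 5), (-5, 11), (-8, 15), (5, 7), (-1, 1)],
   .leaf [(5, 2), (-13, 7), (4, 3), (-1, 1), (5, 7), (3, 11), (-6, 7), (17, 11), (-17, 7)],
   .leaf [(1, 1), (-1, 2), (3, 11), (2, 7), (-1, 1)],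
   .split 3,
   .leaf [(5, 9), (2, 7), (-1, 1)],
   .leaf [(4, 5), (-5, 33), (-1, 7), (5, 9), (25, 77), (-3, 10), (-5, 11)],
   .leaf [(2, 1), (-1, 1), (1, 1), (0, 1), (1, 5), (5, 9), (-5, 11), (4, 5), (-5, 3)],
   .leaf [(5, 2), (-53, 35), (10, 11), (-9, 35), (-15, 22), (1, 1), (-1, 1), (5, 3), (-11, 5)],
   .leaf [(10, 11), (1, 21), (-1, 1)],
   .leaf [(5, 7), (-1, 15), (-5, 11), (2, 3), (-1, 1)],
   .leaf [(4, 3), (-1, 1), (1, 1), (0, 1), (-3, 5), (10, 11), (-13, 7)],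
   .leaf [(1, 1), (-1, 1), (1, 3), (7, 11), (-3, 2)],
   .split 13,
   .split 2,
   .leaf [(20, 7), (-11, 5), (5, 3), (-1, 1), (1, 3), (5, 13), (-1, 10), (95, 91), (-97, 60), (215, 91), (-47, 15)],
   .leaf [(1, 1), (-3, 4), (5, 13), (1, 3), (-1, 1)],
   .leaf [(2, 1), (-1, 1), (1, 1), (0, 1), (-1, 5), (5, 13), (-25, 21)],
   .leaf [(5, 7), (2, 15), (5, 13), (1, 14), (-1, 3)],
   .leaf [(11, 5), (-25, 13), (4, 3), (-1, 1), (1, 1), (0, 1), (1, 5), (-5, 6), (5, 13), (-1, 35), (-25, 26), (51, 35), (-30, 13)],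
   .leaf [(5, 3), (-1, 1), (1, 1), (-1, 2), (5, 13), (3, 7), (-16, 13)],
   .leaf [(2, 1), (-1, 1), (1, 1), (0, 1), (-3, 5), (20, 13), (-7, 3)],
   .leaf [(47, 13), (-55, 21), (2, 1), (-1, 1), (1, 1), (0, 1), (3, 5), (5, 13), (-44, 35), (85, 39), (-83, 35), (40, 13), (-27, 7)],
   .leaf [(5, 7), (-1, 3), (1, 2), (5, 13), (-4, 5)],
   .leaf [(2, 1), (-1, 1), (1, 1), (0, 1), (3, 5), (-5, 7), (5, 13), (2, 5), (-15, 13), (17, 10), (-5, 3)],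
   .leaf [(25, 14), (-59, 65), (5, 21), (5, 13), (-1, 1), (5, 3), (-11, 5)]]

def toks11 : List Tok :=
  [.leaf [(2, 1), (-1, 1), (1, 1), (0, 1), (1, 5), (5, 13), (-9, 7)],
   .leaf [(5, 13), (2, 7), (-1, 3)],
   .leaf [(15, 7), (-3, 2), (1, 1), (0, 1), (-59, 65), (65, 42), (-11, 5)],
   .leaf [(1, 1), (0, 1), (1, 5), (-5, 6), (-1, 7), (1, 3), (-1, 1)],
   .leaf [(1, 1), (-1, 3), (-1, 2)]]

def toks : List Tok :=
  toks0 ++ (toks1 ++ (toks2 ++ (toks3 ++ (toks4 ++ (toks5 ++ (toks6 ++ (toks7 ++ (toks8 ++ (toks9 ++ (toks10 ++ (toks11)))))))))))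

theorem run_toks : run 66 toks [(0, 1)] = true := by
  decide +kernel

/-- every row with `n ≥ 66` is good -/
theorem good_of_le {n : ℕ} (hn : 66 ≤ n) : Good n :=
  run_sound toks [(0, 1)] run_toks (0, 1) (List.mem_singleton.2 rfl) n hn (Nat.modEq_one)

end Pool.Agent.Lib_MP_c09310_ts
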