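import Pool.Agent.Lib_MP_c09310_ts.Basic

/-!
# The rows with `n < 66`, and the exceptional rows
-/

set_option autoImplicit false

namespace Pool.Agent.Lib_MP_c09310_ts

/-- the exceptional rows -/
def exc : Finset ℕ := {1, 3, 5, 15, 19, 21, 65}

/-- numbers of row `n` with twice the product the square of the last entry -/
def tab : List (List ℕ × ℕ) :=
  [([], 0),
   ([], 0),
   ([2], 2),
   ([], 0),
   ([8], 4),
   ([], 0),
   ([18], 6),
   ([24, 27], 36),
   ([32], 8),
   ([40, 45], 60),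
   ([50], 10),
   ([56, 63], 84),
   ([72], 12),
   ([80, 90], 120),
   ([98], 14),
   ([], 0),
   ([128], 16),
   ([147, 150], 210),
   ([162], 18),
   ([], 0),
   ([200], 20),
   ([], 0),
   ([242], 22),
   ([255, 270, 272], 6120),
   ([288], 24),
   ([304, 306, 323], 7752),
   ([338], 26),
   ([360, 363, 375], 9900),
   ([392], 28),
   ([408, 425, 432], 12240),
   ([450], 30),
   ([468, 475, 494], 14820),
   ([512], 32),
   ([539, 550], 770),
   ([578], 34),
   ([598, 621, 624], 21528),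
   ([648], 36),
   ([686, 700], 980),
   ([722], 38),
   ([744, 768, 775], 29760),
   ([800], 40),
   ([833, 850], 1190),
   ([882], 42),
   ([910, 918, 924, 935, 936], 36756720),
   ([968], 44),
   ([1008, 1014, 1029], 45864),
   ([1058], 46),
   ([1085, 1116, 1120], 52080),
   ([1152], 48),
   ([1184, 1188, 1221], 58608),
   ([1250], 50),
   ([1276, 1305, 1320, 1323], 2411640),
   ([1352], 52),
   ([1386, 1400, 1408], 73920),
   ([1458], 54),
   ([1488, 1519, 1536], 83328),
   ([1568], 56),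
   ([1617, 1650], 2310),
   ([1682], 58),
   ([1715, 1750], 2450),
   ([1800], 60),
   ([1836, 1850, 1887], 113220),
   ([1922], 62),
   ([1960, 2000], 2800),
   ([2048], 64),
   ([], 0)]

def chk (n : ℕ) : Bool :=
  ((tab.getD n ([], 1)).1.all fun N => decide (n * n < 2 * N + n) && decide (2 * N ≤ n * n + n)) &&
    decide (2 * (tab.getD n ([], 1)).1.prod = (tab.getD n ([], 1)).2 * (tab.getD n ([], 1)).2)

theorem chk_all : ∀ n < 66, n = 0 ∨ n ∈ exc ∨ chk n = true := by
  decide +kernel

theorem good_of_lt {n : ℕ} (h1 : 1 ≤ n) (h2 : n < 66) (h3 : n ∉ exc) : Good n := by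
  rcases chk_all n h2 with h | h | h
  · omega
  · exact absurd h h3
  · unfold chk at h
    rw [Bool.and_eq_true, decide_eq_true_eq, List.all_eq_true] at h
    refine ⟨(tab.getD n ([], 1)).1, ?_, ⟨_, h.2⟩⟩
    intro N hN
    have := h.1 N hN
    rw [Bool.and_eq_true, decide_eq_true_eq, decide_eq_true_eq] at this
    exact this

/-- multiplicity of `p` in `N`, with fuel -/
def mu (p : ℕ) : ℕ → ℕ → ℕ
  | 0, _ => 0
  | k + 1, N => if N % p = 0 then mu p k (N / p) + 1 else 0

theorem mu_eq {p : ℕ} (hp : p.Prime) : ∀ (k N : ℕ), 0 < N → N < 2 ^ k → mu p k N = N.factorization p := by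
  intro k
  induction k with
  | zero =>
    intro N h1 h2
    rw [pow_zero] at h2
    omega
  | succ k ih =>
    intro N h1 h2
    unfold mu
    split_ifs with h
    · obtain ⟨c, rfl⟩ := Nat.dvd_of_mod_eq_zero h
      have hc : 0 < c := Nat.pos_of_mul_pos_left h1
      rw [Nat.mul_div_cancel_left c hp.pos, ih c hc ?_, Nat.factorization_mul hp.ne_zero hc.ne',
        Finsupp.add_apply, hp.factorization_self, add_comm]
      have h3 : 2 * c ≤ p * c := Nat.mul_le_mul_right c hp.two_le
      rw [pow_succ] at h2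
      omega
    · exact (Nat.factorization_eq_zero_of_not_dvd fun h3 => h (Nat.mod_eq_zero_of_dvd h3)).symm

/-- number of prime factors of `N` in the list `Q` -/
def om (Q : List ℕ) (N : ℕ) : ℕ := (Q.map fun p => N.factorization p).sum

def omk (Q : List ℕ) (N : ℕ) : ℕ := (Q.map fun p => mu p 12 N).sum

theorem om_eq {Q : List ℕ} (hQ : ∀ p ∈ Q, p.Prime) {N : ℕ} (h1 : 0 < N) (h2 : N < 4096) : omk Q N = om Q N := by
  unfold om omk
  congr 1
  refine List.map_congr_left fun p hp => ?_
  exact mu_eq (hQ p hp) 12 N h1 h2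

theorem om_mul (Q : List ℕ) {a b : ℕ} (ha : 0 < a) (hb : 0 < b) : om Q (a * b) = om Q a + om Q b := by
  unfold om
  rw [← List.sum_map_add]
  congr 1
  refine List.map_congr_left fun p _ => ?_
  rw [Nat.factorization_mul ha.ne' hb.ne', Finsupp.add_apply]

def Q1 : List ℕ := [2]

def Q3 : List ℕ := [2, 3]

def Q5 : List ℕ := [2, 7]

def Q15 : List ℕ := [2, 5, 19, 23, 53, 59]

def Q19 : List ℕ := [2, 13, 19, 23, 29, 31, 89]

def Q21 : List ℕ := [2, 3, 7, 19, 23, 31, 71, 73, 107, 109, 113]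

def Q65 : List ℕ := [2, 5, 13, 17, 23, 29, 31, 41, 47, 61, 67, 73, 89, 97, 107, 139, 149, 151, 163, 263, 347, 349, 353, 419, 421, 1049, 1051, 1061, 1063, 1069]

/-- the prime set of an exceptional row -/
def Qs : ℕ → List ℕ
  | 1 => Q1
  | 3 => Q3
  | 5 => Q5
  | 15 => Q15
  | 19 => Q19
  | 21 => Q21
  | 65 => Q65
  | _ => []

theorem prime_Q1 : ∀ p ∈ Q1, p.Prime := by
  intro p hp
  simp only [Q1, List.mem_cons, List.not_mem_nil, or_false] at hp
  rcases hp with rfl <;> norm_num

theorem prime_Q3 : ∀ p ∈ Q3, p.Prime := by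
  intro p hp
  simp only [Q3, List.mem_cons, List.not_mem_nil, or_false] at hp
  rcases hp with rfl | rfl <;> norm_num

theorem prime_Q5 : ∀ p ∈ Q5, p.Prime := by
  intro p hp
  simp only [Q5, List.mem_cons, List.not_mem_nil, or_false] at hp
  rcases hp with rfl | rfl <;> norm_num

theorem prime_Q15 : ∀ p ∈ Q15, p.Prime := by
  intro p hp
  simp only [Q15, List.mem_cons, List.not_mem_nil, or_false] at hp
  rcases hp with rfl | rfl | rfl | rfl | rfl | rfl <;> norm_num

theorem prime_Q19 : ∀ p ∈ Q19, p.Prime := by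
  intro p hp
  simp only [Q19, List.mem_cons, List.not_mem_nil, or_false] at hp
  rcases hp with rfl | rfl | rfl | rfl | rfl | rfl | rfl <;> norm_num

theorem prime_Q21 : ∀ p ∈ Q21, p.Prime := by
  intro p hp
  simp only [Q21, List.mem_cons, List.not_mem_nil, or_false] at hp
  rcases hp with rfl | rfl | rfl | rfl | rfl | rfl | rfl | rfl | rfl | rfl | rfl <;> norm_num

theorem prime_Q65 : ∀ p ∈ Q65, p.Prime := by
  intro p hp
  simp only [Q65, List.mem_cons, List.not_mem_nil, or_false] at hp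
  rcases hp with rfl | rfl | rfl | rfl | rfl | rfl | rfl | rfl | rfl | rfl | rfl | rfl | rfl | rfl | rfl | rfl | rfl | rfl | rfl | rfl | rfl | rfl | rfl | rfl | rfl | rfl | rfl | rfl | rfl | rfl <;> norm_num

theorem prime_Qs {n : ℕ} (hn : n ∈ exc) : ∀ p ∈ Qs n, p.Prime := by
  have h : n = 1 ∨ n = 3 ∨ n = 5 ∨ n = 15 ∨ n = 19 ∨ n = 21 ∨ n = 65 := by
    simpa [exc] using hn
  rcases h with rfl | rfl | rfl | rfl | rfl | rfl | rfl
  · exact prime_Q1
  · exact prime_Q3
  · exact prime_Q5
  · exact prime_Q15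
  · exact prime_Q19
  · exact prime_Q21
  · exact prime_Q65

theorem even_kernel : ∀ n ∈ exc, (∀ N < n * n / 2 + n + 1, n * n < 2 * N + n → 2 * N ≤ n * n + n → omk (Qs n) N % 2 = 0) ∧
    omk (Qs n) 2 = 1 := by
  decide +kernel

/-- on an exceptional row the number of prime factors in `Qs n` is even -/
theorem even_row {n N : ℕ} (hn : n ∈ exc) (hN : InRow n N) : om (Qs n) N % 2 = 0 := by
  have h65 : n ≤ 65 := by
    have h : n = 1 ∨ n = 3 ∨ n = 5 ∨ n = 15 ∨ n = 19 ∨ n = 21 ∨ n = 65 := by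
      simpa [exc] using hn
    omega
  have h0 : 0 < N := by
    rcases Nat.eq_zero_or_pos N with h0 | h0
    · exfalso
      have h1 := hN.1
      rw [h0] at h1
      nlinarith
    · exact h0
  have hsq : n * n ≤ 65 * 65 := Nat.mul_le_mul h65 h65
  have h2 := hN.2
  have h1 : N < 4096 := by omega
  have h3 : 0 < n := by
    rcases Nat.eq_zero_or_pos n with h3 | h3
    · rw [h3] at h2
      omega
    · exact h3
  rw [← om_eq (prime_Qs hn) h0 h1]
  refine (even_kernel n hn).1 N ?_ hN.1 hN.2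
  omega

theorem om_two {n : ℕ} (hn : n ∈ exc) : om (Qs n) 2 = 1 := by
  rw [← om_eq (prime_Qs hn) (by norm_num) (by norm_num)]
  exact (even_kernel n hn).2

end Pool.Agent.Lib_MP_c09310_ts
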